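import Pool.Agent.Helper75_LeoC.KetA

/-!
# Squad LEOC, module KET: the compact set of the main part and its volume
-/

set_option autoImplicit false
set_option linter.unusedSectionVars false

open NumberField NumberField.InfinitePlace NumberField.mixedEmbedding Module MeasureTheory Filter
  Topology
open Pool.Agent.LeoK Pool.Agent.LeoG

open scoped Classical

namespace Pool.Agent.LeoC.H75

variable {k : Type} [Field k] [NumberField k]

theorem ev_real (w : {w : InfinitePlace k // IsReal w}) (y : MS k) :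
    ‖ev w.1 y‖ = |y.1 w| := by
  unfold ev
  rw [dif_pos w.2, Complex.norm_real]
  rfl

theorem ev_complex (w : {w : InfinitePlace k // IsComplex w}) (y : MS k) :
    ev w.1 y = y.2 w := by
  unfold ev
  rw [dif_neg (not_isReal_iff_isComplex.2 w.2)]

theorem contOn_fb {S : Set (Fin 4 → MS k)} (h : ∀ g ∈ S, ∀ v, ev v (g 0) ≠ 0) :
    ContinuousOn (fun g : Fin 4 → MS k => (g 1 / (3 * g 0) : MS k)) S := by
  have h1 : ContinuousOn (fun g : Fin 4 → MS k => (g 1 / (3 * g 0) : MS k).1) S := by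
    refine continuousOn_pi.2 fun w => ?_
    show ContinuousOn (fun g : Fin 4 → MS k => (g 1).1 w / (3 * (g 0).1 w)) S
    refine ContinuousOn.div (by fun_prop) (by fun_prop) fun g hg => ?_
    have h2 := h g hg w.1
    have h3 : (g 0).1 w ≠ 0 := by
      intro h0
      apply h2
      rw [← norm_eq_zero, ev_real, h0, abs_zero]
    exact mul_ne_zero (by norm_num) h3
  have h2 : ContinuousOn (fun g : Fin 4 → MS k => (g 1 / (3 * g 0) : MS k).2) S := by
    refine continuousOn_pi.2 fun w => ?_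
    show ContinuousOn (fun g : Fin 4 → MS k => (g 1).2 w / (3 * (g 0).2 w)) S
    refine ContinuousOn.div (by fun_prop) (by fun_prop) fun g hg => ?_
    have h2 := h g hg w.1
    rw [ev_complex] at h2
    exact mul_ne_zero (by norm_num) h2
  exact h1.prodMk h2

theorem contOn_sz {S : Set (Fin 4 → MS k)} (h : ∀ g ∈ S, ∀ v, ev v (mm g) ≠ 0) :
    ContinuousOn (fun g : Fin 4 → MS k => sz g) S := by
  refine continuousOn_pi.2 fun v => ?_
  intro g hg
  refine ContinuousAt.continuousWithinAt ?_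
  have h1 : mm (fv v g) ≠ 0 := by
    rw [mm_fv]
    exact h g hg v
  exact (cont_hc h1).comp (cont_fv v).continuousAt

theorem isClosed_C0 (N : Set {w : InfinitePlace k // IsReal w}) (η c₁ : ℝ) :
    IsClosed {g : Fin 4 → MS k | (∀ v, η ≤ ‖ev v (g 0)‖) ∧
      (∀ w, (w ∈ N → (mm g : MS k).1 w ≤ -c₁) ∧ (w ∉ N → c₁ ≤ (mm g : MS k).1 w)) ∧
      ∀ v, c₁ ≤ ‖ev v (mm g)‖} := by
  have hc1 : ∀ w, Continuous fun g : Fin 4 → MS k => (mm g : MS k).1 w := fun w =>
    (continuous_apply w).comp (continuous_fst.comp cont_mm)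
  rw [Set.ofPred_and, Set.ofPred_and, Set.ofPred_forall, Set.ofPred_forall, Set.ofPred_forall]
  refine IsClosed.inter (isClosed_iInter fun v => ?_) (IsClosed.inter
    (isClosed_iInter fun w => ?_) (isClosed_iInter fun v => ?_))
  · exact isClosed_le continuous_const ((cont_ev v).comp (continuous_apply 0)).norm
  · by_cases hw : w ∈ N
    · have : {g : Fin 4 → MS k | (w ∈ N → (mm g : MS k).1 w ≤ -c₁) ∧
          (w ∉ N → c₁ ≤ (mm g : MS k).1 w)} = {g | (mm g : MS k).1 w ≤ -c₁} := by
        ext g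
        constructor
        · intro h
          exact h.1 hw
        · intro h
          exact ⟨fun _ => h, fun h' => absurd hw h'⟩
      rw [this]
      exact isClosed_le (hc1 w) continuous_const
    · have : {g : Fin 4 → MS k | (w ∈ N → (mm g : MS k).1 w ≤ -c₁) ∧
          (w ∉ N → c₁ ≤ (mm g : MS k).1 w)} = {g | c₁ ≤ (mm g : MS k).1 w} := by
        ext g
        constructor
        · intro h
          exact h.2 hw
        · intro h
          exact ⟨fun h' => absurd h' hw, fun _ => h⟩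
      rw [this]
      exact isClosed_le continuous_const (hc1 w)
  · exact isClosed_le continuous_const ((cont_ev v).comp cont_mm).norm

theorem meas_sgn (N : Set {w : InfinitePlace k // IsReal w}) :
    MeasurableSet {y : MS k | Sgn N y} := by
  unfold Sgn
  rw [Set.ofPred_and, Set.ofPred_forall, Set.ofPred_forall]
  refine MeasurableSet.inter (MeasurableSet.iInter fun w => ?_) (MeasurableSet.iInter fun w => ?_)
  · have h1 : Measurable fun y : MS k => y.1 w := (measurable_pi_apply w).comp measurable_fst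
    by_cases hw : w ∈ N
    · have : {y : MS k | (w ∈ N → y.1 w < 0) ∧ (w ∉ N → 0 < y.1 w)} = {y | y.1 w < 0} := by
        ext y
        constructor
        · intro h
          exact h.1 hw
        · intro h
          exact ⟨fun _ => h, fun h' => absurd hw h'⟩
      rw [this]
      exact measurableSet_lt h1 measurable_const
    · have : {y : MS k | (w ∈ N → y.1 w < 0) ∧ (w ∉ N → 0 < y.1 w)} = {y | 0 < y.1 w} := by
        ext y
        constructor
        · intro h
          exact h.2 hw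
        · intro h
          exact ⟨fun h' => absurd h' hw, fun _ => h⟩
      rw [this]
      exact measurableSet_lt measurable_const h1
  · have h1 : Measurable fun y : MS k => y.2 w := (measurable_pi_apply w).comp measurable_snd
    exact (measurableSet_eq_fun h1 measurable_const).compl

theorem vol_closure_FD : volume (closure (FD k)) = volume (FD k) := by
  refine le_antisymm ?_ (measure_mono subset_closure)
  have h1 : volume (parallelepiped (latticeBasis k)) = volume (FD k) :=
    (measure_congr (ZSpan.fundamentalDomain_ae_parallelepiped (latticeBasis k) volume)).symm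
  rw [← h1]
  refine measure_mono ?_
  refine closure_minimal (ZSpan.fundamentalDomain_subset_parallelepiped (latticeBasis k)) ?_
  exact (Basis.parallelepiped (latticeBasis k)).isCompact.isClosed

end Pool.Agent.LeoC.H75

namespace Pool.Agent.LeoC.H75

theorem ket (hcon : ConStmt) (havv : AvvStmt) (hvol : VolStmt) : KetStmt := by
  intro k _ _ Φ N T η hT hη
  obtain ⟨hcov, hw, hcF, hiv, -, hvv⟩ := hcon k Φ
  set n := finrank ℚ k with hn
  have hcF0 : 0 < Φ.cF := by linarith
  set c₁ : ℝ := η ^ (1 / n : ℝ) / Φ.cF with hc₁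
  have hc₁0 : 0 < c₁ := div_pos (Real.rpow_pos_of_pos hη _) hcF0
  set FT : Set (PS k) := Φ.F ∩ {x | nr x ≤ T} with hFT
  set F1 : Set (PS k) := Φ.F ∩ {x | nr x ≤ 1} with hF1
  obtain ⟨hT4, -, hT3, -⟩ := hvv T hT
  obtain ⟨h14, -, h13, -⟩ := hvv 1 one_pos
  obtain ⟨C0, hC0⟩ : ∃ C0 : Set (Fin 4 → MS k), C0 = {g | (∀ v, η ≤ ‖ev v (g 0)‖) ∧
      (∀ w, (w ∈ N → (mm g : MS k).1 w ≤ -c₁) ∧ (w ∉ N → c₁ ≤ (mm g : MS k).1 w)) ∧
      ∀ v, c₁ ≤ ‖ev v (mm g)‖} := ⟨_, rfl⟩
  have hC0c : IsClosed C0 := by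
    rw [hC0]
    exact isClosed_C0 N η c₁
  have hne0 : ∀ g ∈ C0, ∀ v, ev v (g 0) ≠ 0 := by
    intro g hg v
    rw [hC0] at hg
    exact norm_pos_iff.1 (lt_of_lt_of_le hη (hg.1 v))
  have hnem : ∀ g ∈ C0, ∀ v, ev v (mm g) ≠ 0 := by
    intro g hg v
    rw [hC0] at hg
    exact norm_pos_iff.1 (lt_of_lt_of_le hc₁0 (hg.2.2 v))
  have hfbc := contOn_fb hne0
  have hfxc := contOn_sz hnem
  have hfmc : Continuous fun g : Fin 4 → MS k => av (mm g : MS k) := cont_av.comp cont_mm
  obtain ⟨K, hK⟩ : ∃ K : Set (Fin 4 → MS k), K =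
      ((C0 ∩ (fun g : Fin 4 → MS k => (g 1 / (3 * g 0) : MS k)) ⁻¹' closure (FD k)) ∩
        (C0 ∩ (fun g : Fin 4 → MS k => sz g) ⁻¹' closure FT)) ∩
        ((fun g : Fin 4 → MS k => av (mm g : MS k)) ⁻¹' closure F1) := ⟨_, rfl⟩
  have hKc : IsClosed K := by
    rw [hK]
    refine IsClosed.inter (IsClosed.inter ?_ ?_) ?_
    · exact hfbc.preimage_isClosed_of_isClosed hC0c isClosed_closure
    · exact hfxc.preimage_isClosed_of_isClosed hC0c isClosed_closure
    · exact isClosed_closure.preimage hfmc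
  have hmemK : ∀ g ∈ K, g ∈ C0 ∧ (g 1 / (3 * g 0) : MS k) ∈ closure (FD k) ∧
      sz g ∈ closure FT ∧ av (mm g : MS k) ∈ closure F1 := by
    intro g hg
    rw [hK] at hg
    exact ⟨hg.1.1.1, hg.1.1.2, hg.1.2.2, hg.2⟩
  -- bounds
  have hFDb : Bornology.IsBounded (FD k) := ZSpan.fundamentalDomain_isBounded (latticeBasis k)
  obtain ⟨Cb, hCb⟩ := hFDb.closure.exists_norm_le
  obtain ⟨Cx, hCx⟩ := hT4.closure.exists_norm_le
  obtain ⟨Cm, hCm⟩ := h14.closure.exists_norm_le
  obtain ⟨C, hC0', hC⟩ := bd_one η c₁ (max Cx 0) (max Cm 0) (max Cb 0) hη hc₁0 (le_max_right _ _)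
    (le_max_right _ _) (le_max_right _ _)
  have hKb : K ⊆ Metric.closedBall 0 C := by
    intro g hg
    obtain ⟨g1, g2, g3, g4⟩ := hmemK g hg
    rw [mem_closedBall_zero_iff, pi_norm_le_iff_of_nonneg hC0']
    intro i
    refine norm_le_of_ev hC0' fun v => ?_
    have h2 : ‖(g 1 / (3 * g 0) : MS k)‖ ≤ Cb := hCb _ g2
    have h3 : ‖sz g‖ ≤ Cx := hCx _ g3
    have h4 : ‖av (mm g : MS k)‖ ≤ Cm := hCm _ g4
    have g1' := g1
    rw [hC0] at g1'
    refine hC (fv v g) (g1'.1 v) ?_ ?_ ?_ ?_ i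
    · rw [mm_fv]
      exact g1'.2.2 v
    · have e : fv v g 1 / (3 * fv v g 0) = ev v (g 1 / (3 * g 0) : MS k) := by
        rw [ev_div, ev_three_mul]
        rfl
      rw [e]
      exact ((ev_le_norm _ v).trans h2).trans (le_max_left _ _)
    · exact ((le_abs_self _).trans ((norm_le_pi_norm (sz g) v).trans h3)).trans (le_max_left _ _)
    · rw [mm_fv]
      exact ((le_abs_self _).trans ((norm_le_pi_norm (av (mm g : MS k)) v).trans h4)).trans
        (le_max_left _ _)
  have hKcomp : IsCompact K := (isCompact_closedBall 0 C).of_isClosed_subset hKc hKb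
  refine ⟨K, hKcomp, ?_, ?_⟩
  · -- the volume
    obtain ⟨A, hA⟩ : ∃ A : Set (PS k), A = closure FT ∩ {x | ∀ v, 0 < x v} := ⟨_, rfl⟩
    obtain ⟨B, hB⟩ : ∃ B : Set (PS k), B = closure F1 ∩ {x | ∀ v, 0 < x v} := ⟨_, rfl⟩
    obtain ⟨M, hM⟩ : ∃ M : Set (MS k), M = {y | Sgn N y ∧ av y ∈ B} := ⟨_, rfl⟩
    have hpos : MeasurableSet {x : PS k | ∀ v, 0 < x v} := by
      rw [Set.ofPred_forall]
      exact MeasurableSet.iInter fun s => measurableSet_lt measurable_const (measurable_pi_apply s)
    have hAm : MeasurableSet A := by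
      rw [hA]
      exact isClosed_closure.measurableSet.inter hpos
    have hBm : MeasurableSet B := by
      rw [hB]
      exact isClosed_closure.measurableSet.inter hpos
    have hMm : MeasurableSet M := by
      rw [hM]
      exact (meas_sgn N).inter (cont_av.measurable hBm)
    have hv := hvol k N (closure (FD k)) M A isClosed_closure.measurableSet hAm hMm
      (fun x hx => by rw [hA] at hx; exact hx.2) (fun y hy => by rw [hM] at hy; exact hy.1)
    have hsub : K ⊆ {g : Fin 4 → MS k | (∀ v, ev v (g 0) ≠ 0) ∧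
        (g 1 / (3 * g 0) : MS k) ∈ closure (FD k) ∧ sz g ∈ A ∧ (mm g : MS k) ∈ M} := by
      intro g hg
      obtain ⟨g1, g2, g3, g4⟩ := hmemK g hg
      have g1' := g1
      rw [hC0] at g1'
      refine ⟨hne0 g g1, g2, ?_, ?_⟩
      · rw [hA]
        refine ⟨g3, fun v => ?_⟩
        refine hc_pos (hne0 g g1 v) ?_
        rw [mm_fv]
        exact hnem g g1 v
      · rw [hM]
        refine ⟨⟨fun w => ⟨fun hw => ?_, fun hw => ?_⟩, fun w => ?_⟩, ?_⟩
        · exact lt_of_le_of_lt ((g1'.2.1 w).1 hw) (by linarith)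
        · exact lt_of_lt_of_le hc₁0 ((g1'.2.1 w).2 hw)
        · have := hnem g g1 w.1
          rwa [ev_complex] at this
        · rw [hB]
          exact ⟨g4, fun v => lt_of_lt_of_le hc₁0 (g1'.2.2 v)⟩
    have hvA : (∫⁻ x in A, ∏ v : InfinitePlace k, ENNReal.ofReal (x v ^ (v.mult - 1))) ≤
        ENNReal.ofReal (Φ.w * T) := by
      rw [← hT3]
      refine lintegral_mono_set ?_
      rw [hA]
      exact Set.inter_subset_left
    have hvM : volume M ≤ ENNReal.ofReal ((2 * Real.pi) ^ nrComplexPlaces k) *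
        ENNReal.ofReal (Φ.w * 1) := by
      rw [hM, havv k N B hBm (fun x hx => by rw [hB] at hx; exact hx.2), ← h13]
      refine mul_le_mul' le_rfl (lintegral_mono_set ?_)
      rw [hB]
      exact Set.inter_subset_left
    have hle : volume K ≤ ENNReal.ofReal (Real.pi ^ n / 3 ^ un N) * volume (FD k) *
        ENNReal.ofReal (Φ.w * T) * (ENNReal.ofReal ((2 * Real.pi) ^ nrComplexPlaces k) *
        ENNReal.ofReal (Φ.w * 1)) := by
      refine (measure_mono hsub).trans ?_
      rw [hv, vol_closure_FD]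
      exact mul_le_mul' (mul_le_mul' le_rfl hvA) hvM
    have hFDt : volume (FD k) ≠ ⊤ := hFDb.measure_lt_top.ne
    have hlt : ENNReal.ofReal (Real.pi ^ n / 3 ^ un N) * volume (FD k) *
        ENNReal.ofReal (Φ.w * T) * (ENNReal.ofReal ((2 * Real.pi) ^ nrComplexPlaces k) *
        ENNReal.ofReal (Φ.w * 1)) ≠ ⊤ :=
      ENNReal.mul_ne_top (ENNReal.mul_ne_top (ENNReal.mul_ne_top ENNReal.ofReal_ne_top hFDt)
        ENNReal.ofReal_ne_top) (ENNReal.mul_ne_top ENNReal.ofReal_ne_top ENNReal.ofReal_ne_top)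
    have h := ENNReal.toReal_mono hlt hle
    rw [ENNReal.toReal_mul, ENNReal.toReal_mul, ENNReal.toReal_mul, ENNReal.toReal_mul,
      ENNReal.toReal_ofReal (by positivity), ENNReal.toReal_ofReal (by positivity),
      ENNReal.toReal_ofReal (by positivity), ENNReal.toReal_ofReal (by positivity), mul_one] at h
    have e : (volume (FD k)).toReal = cov k := rfl
    rw [e, mul_comm Φ.w T] at h
    exact h
  · -- membership
    intro g ha hs hb hx hxT hmF hηm hm1
    have hM1 : av (mm g : MS k) ∈ F1 := ⟨hmF, hm1⟩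
    have hXT : sz g ∈ FT := ⟨hx, hxT⟩
    have hc : ∀ v, c₁ ≤ ‖ev v (mm g)‖ := by
      intro v
      have h1 := (hiv _ hmF v).2
      rw [hc₁, div_le_iff₀ hcF0, mul_comm]
      exact (Real.rpow_le_rpow hη.le hηm (by positivity)).trans h1
    have hC0m : g ∈ C0 := by
      rw [hC0]
      refine ⟨ha, fun w => ⟨fun hw => ?_, fun hw => ?_⟩, hc⟩
      · have h1 := hc w.1
        rw [ev_real, abs_of_neg ((hs.1 w).1 hw)] at h1
        linarith
      · have h1 := hc w.1
        rw [ev_real, abs_of_pos ((hs.1 w).2 hw)] at h1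
        exact h1
    rw [hK]
    exact ⟨⟨⟨hC0m, subset_closure hb⟩, ⟨hC0m, subset_closure hXT⟩⟩, subset_closure hM1⟩

end Pool.Agent.LeoC.H75
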