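import Pool.Agent.LeoC.UpStmts

/-!
# Squad LEOC, module KET: coordinates, continuity of the size, bounds at one place
-/

set_option autoImplicit false

open NumberField NumberField.InfinitePlace NumberField.mixedEmbedding Module MeasureTheory Filter
  Topology
open Pool.Agent.LeoK Pool.Agent.LeoG

open scoped Classical

namespace Pool.Agent.LeoC.H75

/-! ### coordinates -/

section

variable {k : Type} [Field k]

theorem cont_ev (v : InfinitePlace k) : Continuous fun y : MS k => ev v y := by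
  unfold ev
  by_cases h : IsReal v
  · simp only [dif_pos h]
    fun_prop
  · simp only [dif_neg h]
    fun_prop

theorem ev_div (v : InfinitePlace k) (y y' : MS k) : ev v (y / y') = ev v y / ev v y' := by
  unfold ev
  by_cases h : IsReal v
  · simp only [dif_pos h]
    rw [← Complex.ofReal_div]
    rfl
  · simp only [dif_neg h]
    rfl

theorem ev_three_mul (v : InfinitePlace k) (y : MS k) : ev v (3 * y) = 3 * ev v y := by
  unfold ev
  by_cases h : IsReal v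
  · simp only [dif_pos h]
    rw [show (3 : ℂ) = ((3 : ℝ) : ℂ) by norm_num, ← Complex.ofReal_mul]
    rfl
  · simp only [dif_neg h]
    rfl

theorem mm_fv (v : InfinitePlace k) (g : Fin 4 → MS k) : mm (fv v g) = ev v (mm g) := by
  unfold fv ev
  by_cases h : IsReal v
  · simp only [dif_pos h]
    have : (mm g : MS k).1 ⟨v, h⟩ = mm (fun i => (g i).1 ⟨v, h⟩) := rfl
    rw [this]
    unfold mm dsc
    push_cast
    rfl
  · simp only [dif_neg h]
    rfl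

theorem cont_mm : Continuous fun g : Fin 4 → MS k => (mm g : MS k) := by
  unfold mm dsc
  fun_prop

theorem cont_fv (v : InfinitePlace k) : Continuous fun g : Fin 4 → MS k => fv v g :=
  continuous_pi fun i => (cont_ev v).comp (continuous_apply i)

theorem cont_av [NumberField k] : Continuous fun y : MS k => av y :=
  continuous_pi fun v => (cont_ev v).norm

theorem norm_le_of_ev [NumberField k] {y : MS k} {C : ℝ} (hC : 0 ≤ C)
    (h : ∀ v, ‖ev v y‖ ≤ C) : ‖y‖ ≤ C := by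
  rw [Prod.norm_def, max_le_iff, pi_norm_le_iff_of_nonneg hC, pi_norm_le_iff_of_nonneg hC]
  constructor
  · rintro ⟨v, hv⟩
    have := h v
    unfold ev at this
    rw [dif_pos hv, Complex.norm_real] at this
    exact this
  · rintro ⟨v, hv⟩
    have := h v
    unfold ev at this
    rw [dif_neg (not_isReal_iff_isComplex.2 hv)] at this
    exact this

theorem ev_le_norm [NumberField k] (y : MS k) (v : InfinitePlace k) : ‖ev v y‖ ≤ ‖y‖ := by
  unfold ev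
  by_cases h : IsReal v
  · rw [dif_pos h, Complex.norm_real]
    exact (norm_le_pi_norm y.1 _).trans (norm_fst_le y)
  · rw [dif_neg h]
    exact (norm_le_pi_norm y.2 _).trans (norm_snd_le y)

end

/-! ### the size at one place -/

/-- the square root -/
noncomputable def sr (v : Q4 ℂ) : ℂ := (27 * mm v) ^ (1 / 2 : ℂ)

theorem sr_sq (v : Q4 ℂ) : sr v ^ 2 = 27 * mm v := by
  unfold sr
  have := Complex.cpow_nat_inv_pow (27 * mm v) (n := 2) (by norm_num)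
  rw [one_div]
  exact_mod_cast this

theorem gval10 (v : Q4 ℂ) : gval v 1 0 = v 0 := by
  unfold gval
  ring

theorem gcov10 (v : Q4 ℂ) :
    gcov v 1 0 = 2 * v 1 ^ 3 - 9 * v 0 * v 1 * v 2 + 27 * v 0 ^ 2 * v 3 := by
  unfold gcov
  ring

theorem syz10 (v : Q4 ℂ) :
    gcov v 1 0 ^ 2 = 27 * mm v * v 0 ^ 2 + 4 * (v 1 ^ 2 - 3 * v 0 * v 2) ^ 3 := by
  rw [gcov10]
  unfold mm dsc
  ring

/-- a symmetric function -/
noncomputable def sy (a z : ℂ) : ℝ := ‖(a + z) / 2‖ ^ (2 / 3 : ℝ) + ‖(a - z) / 2‖ ^ (2 / 3 : ℝ)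

theorem sy_neg (a z : ℂ) : sy a (-z) = sy a z := by
  unfold sy
  rw [sub_neg_eq_add, ← sub_eq_add_neg, add_comm]

theorem cont_sy : Continuous fun p : ℂ × ℂ => sy p.1 p.2 := by
  unfold sy
  refine Continuous.add ?_ ?_
  · exact (by fun_prop : Continuous fun p : ℂ × ℂ => ‖(p.1 + p.2) / 2‖).rpow_const
      fun _ => Or.inr (by norm_num)
  · exact (by fun_prop : Continuous fun p : ℂ × ℂ => ‖(p.1 - p.2) / 2‖).rpow_const
      fun _ => Or.inr (by norm_num)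

theorem hc_eq_sy (v : Q4 ℂ) :
    hc v 1 0 = sy (v 0) (gcov v 1 0 / sr v) / (2 * (‖mm v‖ / 27) ^ (1 / 6 : ℝ)) := by
  unfold hc sy sr
  rw [gval10]

/-- the square of a discontinuous function is enough for an even function -/
theorem even_lim {X : Type*} {l : Filter X} {a : X → ℂ} {z : X → ℂ} {a₀ z₀ : ℂ}
    (ha : Tendsto a l (𝓝 a₀)) (hz : Tendsto (fun x => z x ^ 2) l (𝓝 (z₀ ^ 2))) :
    Tendsto (fun x => sy (a x) (z x)) l (𝓝 (sy a₀ z₀)) := by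
  obtain ⟨z', hz'⟩ : ∃ z' : X → ℂ, z' = fun x =>
    if ‖z x - z₀‖ ≤ ‖z x + z₀‖ then z x else -z x := ⟨_, rfl⟩
  have h1 : ∀ x, ‖z' x - z₀‖ ^ 2 ≤ ‖z x ^ 2 - z₀ ^ 2‖ := by
    intro x
    have e : z x ^ 2 - z₀ ^ 2 = (z x - z₀) * (z x + z₀) := by ring
    rw [e, norm_mul, hz']
    simp only
    split_ifs with h
    · rw [pow_two]
      exact mul_le_mul_of_nonneg_left h (norm_nonneg _)
    · have e2 : -z x - z₀ = -(z x + z₀) := by ring
      rw [e2, norm_neg, pow_two]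
      exact mul_le_mul_of_nonneg_right (not_le.1 h).le (norm_nonneg _)
  have h2 : Tendsto (fun x => ‖z x ^ 2 - z₀ ^ 2‖) l (𝓝 0) := by
    have := (hz.sub_const (z₀ ^ 2)).norm
    rwa [sub_self, norm_zero] at this
  have h3 : Tendsto (fun x => ‖z' x - z₀‖ ^ 2) l (𝓝 0) :=
    squeeze_zero (fun x => by positivity) h1 h2
  have h4 : Tendsto (fun x => ‖z' x - z₀‖) l (𝓝 0) := by
    have := (Real.continuous_sqrt.tendsto 0).comp h3
    rw [Real.sqrt_zero] at this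
    refine this.congr fun x => ?_
    exact Real.sqrt_sq (norm_nonneg _)
  have h5 : Tendsto z' l (𝓝 z₀) := tendsto_iff_norm_sub_tendsto_zero.2 h4
  have h6 : Tendsto (fun x => ((a x, z' x) : ℂ × ℂ)) l (𝓝 (a₀, z₀)) := ha.prodMk_nhds h5
  have h7 := (cont_sy.tendsto (a₀, z₀)).comp h6
  have h8 : ∀ x, ((fun p : ℂ × ℂ => sy p.1 p.2) ∘ fun x => (a x, z' x)) x = sy (a x) (z x) := by
    intro x
    rw [Function.comp_apply]
    simp only
    rw [hz']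
    simp only
    split_ifs with h
    · rfl
    · exact sy_neg _ _
  exact h7.congr h8

theorem cont_mmC : Continuous fun v : Q4 ℂ => mm v := by
  unfold mm dsc
  fun_prop

theorem cont_hc {v₀ : Q4 ℂ} (h : mm v₀ ≠ 0) :
    ContinuousAt (fun v : Q4 ℂ => hc v 1 0) v₀ := by
  have h27 : (27 : ℂ) * mm v₀ ≠ 0 := mul_ne_zero (by norm_num) h
  have hcov : Continuous fun v : Q4 ℂ => gcov v 1 0 := by
    unfold gcov
    fun_prop
  have h1 : Tendsto (fun v : Q4 ℂ => (gcov v 1 0 / sr v) ^ 2) (𝓝 v₀)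
      (𝓝 ((gcov v₀ 1 0 / sr v₀) ^ 2)) := by
    simp only [div_pow, sr_sq]
    exact (ContinuousAt.div (hcov.pow 2).continuousAt
      (continuous_const.mul cont_mmC).continuousAt h27)
  have h2 := even_lim (a := fun v : Q4 ℂ => v 0) ((continuous_apply 0).tendsto v₀) h1
  have h3 : ContinuousAt (fun v : Q4 ℂ => 2 * (‖mm v‖ / 27) ^ (1 / 6 : ℝ)) v₀ := by
    refine continuousAt_const.mul (ContinuousAt.rpow_const ?_ (Or.inr (by norm_num)))
    exact (cont_mmC.norm.div_const 27).continuousAt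
  have h4 : 2 * (‖mm v₀‖ / 27) ^ (1 / 6 : ℝ) ≠ 0 := by
    have := norm_pos_iff.2 h
    positivity
  have h5 := Tendsto.div h2 h3 h4
  rw [ContinuousAt, hc_eq_sy v₀]
  refine h5.congr fun v => ?_
  exact (hc_eq_sy v).symm

theorem hc_pos {v : Q4 ℂ} (h0 : v 0 ≠ 0) (h : mm v ≠ 0) : 0 < hc v 1 0 := by
  rw [hc_eq_sy]
  have hm : 0 < ‖mm v‖ := norm_pos_iff.2 h
  refine div_pos ?_ (by positivity)
  unfold sy
  obtain ⟨z, hz⟩ : ∃ z : ℂ, z = gcov v 1 0 / sr v := ⟨_, rfl⟩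
  rw [← hz]
  by_cases h1 : (v 0 + z) / 2 = 0
  · have h2 : (v 0 - z) / 2 ≠ 0 := by
      intro h2
      apply h0
      have : v 0 = (v 0 + z) / 2 + (v 0 - z) / 2 := by ring
      rw [this, h1, h2, add_zero]
    have h3 : 0 < ‖(v 0 - z) / 2‖ := norm_pos_iff.2 h2
    have := Real.rpow_pos_of_pos h3 (2 / 3)
    have h4 : 0 ≤ ‖(v 0 + z) / 2‖ ^ (2 / 3 : ℝ) := by positivity
    linarith
  · have h3 : 0 < ‖(v 0 + z) / 2‖ := norm_pos_iff.2 h1
    have := Real.rpow_pos_of_pos h3 (2 / 3)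
    have h4 : 0 ≤ ‖(v 0 - z) / 2‖ ^ (2 / 3 : ℝ) := by positivity
    linarith

/-- bounds at one place -/
theorem bd_one (η c₁ Cx Cm Cb : ℝ) (hη : 0 < η) (hc₁ : 0 < c₁) (hCx : 0 ≤ Cx) (hCm : 0 ≤ Cm)
    (hCb : 0 ≤ Cb) :
    ∃ C : ℝ, 0 ≤ C ∧ ∀ v : Q4 ℂ, η ≤ ‖v 0‖ → c₁ ≤ ‖mm v‖ → ‖v 1 / (3 * v 0)‖ ≤ Cb →
      hc v 1 0 ≤ Cx → ‖mm v‖ ≤ Cm → ∀ i, ‖v i‖ ≤ C := by
  obtain ⟨E, hE⟩ : ∃ E : ℝ, E = (2 * (Cm / 27) ^ (1 / 6 : ℝ) * Cx) ^ (3 / 2 : ℝ) := ⟨_, rfl⟩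
  have hE0 : 0 ≤ E := by rw [hE]; positivity
  set CA : ℝ := 2 * E with hCA
  set CP : ℝ := 1 + 27 * Cm * E ^ 2 with hCP
  set CG : ℝ := 1 + (27 * Cm * CA ^ 2 + 4 * (27 * Cm * E ^ 2)) with hCG
  set CB : ℝ := 3 * Cb * CA with hCB
  set CC : ℝ := (CB ^ 2 + CP) / (3 * η) with hCC
  set CD : ℝ := (CG + 2 * CB ^ 3 + 9 * CA * CB * CC) / (27 * η ^ 2) with hCD
  have hCA0 : 0 ≤ CA := by positivity
  have hCP0 : 0 ≤ CP := by positivity
  have hCG0 : 0 ≤ CG := by positivity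
  have hCB0 : 0 ≤ CB := by positivity
  have hCC0 : 0 ≤ CC := by positivity
  have hCD0 : 0 ≤ CD := by positivity
  refine ⟨CA + CB + CC + CD, by positivity, ?_⟩
  intro v ha hm hb hx hmC
  have ha0 : 0 < ‖v 0‖ := lt_of_lt_of_le hη ha
  have hv0 : v 0 ≠ 0 := norm_pos_iff.1 ha0
  have hm0 : 0 < ‖mm v‖ := lt_of_lt_of_le hc₁ hm
  have hmm : mm v ≠ 0 := norm_pos_iff.1 hm0
  -- the two cubes
  obtain ⟨z, hz⟩ : ∃ z : ℂ, z = gcov v 1 0 / sr v := ⟨_, rfl⟩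
  have hsr0 : sr v ≠ 0 := by
    intro h
    have := sr_sq v
    rw [h] at this
    apply mul_ne_zero (by norm_num : (27 : ℂ) ≠ 0) hmm
    rw [← this]
    ring
  have hz2 : z ^ 2 * (27 * mm v) = gcov v 1 0 ^ 2 := by
    rw [hz, div_pow, sr_sq]
    field_simp
  obtain ⟨α, hα⟩ : ∃ α : ℂ, α = (v 0 + z) / 2 := ⟨_, rfl⟩
  obtain ⟨β, hβ⟩ : ∃ β : ℂ, β = (v 0 - z) / 2 := ⟨_, rfl⟩
  have hsum : v 0 = α + β := by rw [hα, hβ]; ring
  have hsy : ‖α‖ ^ (2 / 3 : ℝ) + ‖β‖ ^ (2 / 3 : ℝ) ≤ 2 * (Cm / 27) ^ (1 / 6 : ℝ) * Cx := by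
    have h1 := hx
    rw [hc_eq_sy, div_le_iff₀ (by positivity), ← hz] at h1
    unfold sy at h1
    rw [← hα, ← hβ] at h1
    refine h1.trans ?_
    have h2 : (‖mm v‖ / 27) ^ (1 / 6 : ℝ) ≤ (Cm / 27) ^ (1 / 6 : ℝ) :=
      Real.rpow_le_rpow (by positivity) (by linarith) (by norm_num)
    have h3 := mul_le_mul_of_nonneg_left h2 hCx
    linarith
  have hroot : ∀ w : ℂ, ‖w‖ ^ (2 / 3 : ℝ) ≤ 2 * (Cm / 27) ^ (1 / 6 : ℝ) * Cx → ‖w‖ ≤ E := by
    intro w hw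
    have h1 := Real.rpow_le_rpow (by positivity) hw (by norm_num : (0 : ℝ) ≤ 3 / 2)
    rw [← Real.rpow_mul (norm_nonneg _)] at h1
    norm_num at h1
    rw [hE]
    exact h1
  have hαE : ‖α‖ ≤ E := hroot α (by
    have : 0 ≤ ‖β‖ ^ (2 / 3 : ℝ) := by positivity
    linarith)
  have hβE : ‖β‖ ≤ E := hroot β (by
    have : 0 ≤ ‖α‖ ^ (2 / 3 : ℝ) := by positivity
    linarith)
  have hA : ‖v 0‖ ≤ CA := by
    rw [hsum]
    refine (norm_add_le _ _).trans ?_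
    rw [hCA]
    linarith
  have hP3 : (v 1 ^ 2 - 3 * v 0 * v 2) ^ 3 = -(27 * mm v * (α * β)) := by
    have h1 := syz10 v
    have h2 : α * β = (v 0 ^ 2 - z ^ 2) / 4 := by rw [hα, hβ]; ring
    rw [h2]
    linear_combination (-1 / 4 : ℂ) * h1 + (-1 / 4 : ℂ) * hz2
  have hPn : ‖v 1 ^ 2 - 3 * v 0 * v 2‖ ^ 3 ≤ 27 * Cm * E ^ 2 := by
    rw [← norm_pow, hP3, norm_neg, norm_mul, norm_mul, norm_mul]
    have e27 : ‖(27 : ℂ)‖ = 27 := by norm_num
    rw [e27, pow_two]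
    gcongr
  have hP : ‖v 1 ^ 2 - 3 * v 0 * v 2‖ ≤ CP := by
    have h1 : ∀ t : ℝ, 0 ≤ t → t ≤ 1 + t ^ 3 := by
      intro t ht
      nlinarith [mul_nonneg ht (sq_nonneg (t - 1)), sq_nonneg (t - 1), sq_nonneg (t + 1)]
    exact (h1 _ (norm_nonneg _)).trans (by rw [hCP]; linarith)
  have hG2 : ‖gcov v 1 0‖ ^ 2 ≤ 27 * Cm * CA ^ 2 + 4 * (27 * Cm * E ^ 2) := by
    rw [← norm_pow, syz10]
    refine (norm_add_le _ _).trans (add_le_add ?_ ?_)
    · rw [norm_mul, norm_mul, norm_pow]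
      have e27 : ‖(27 : ℂ)‖ = 27 := by norm_num
      rw [e27]
      gcongr
    · rw [norm_mul, norm_pow]
      have e4 : ‖(4 : ℂ)‖ = 4 := by norm_num
      rw [e4]
      gcongr
  have hG : ‖gcov v 1 0‖ ≤ CG := by
    have h1 : ∀ t : ℝ, t ≤ 1 + t ^ 2 := by
      intro t
      nlinarith [sq_nonneg (t - 1)]
    exact (h1 _).trans (by rw [hCG]; linarith)
  have hB : ‖v 1‖ ≤ CB := by
    have h1 : v 1 = v 1 / (3 * v 0) * (3 * v 0) := by field_simp
    rw [h1, norm_mul, norm_mul]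
    have e3 : ‖(3 : ℂ)‖ = 3 := by norm_num
    rw [e3, hCB]
    have h2 := mul_le_mul hb hA (norm_nonneg _) hCb
    linarith
  have hC : ‖v 2‖ ≤ CC := by
    have h1 : 3 * v 0 * v 2 = v 1 ^ 2 - (v 1 ^ 2 - 3 * v 0 * v 2) := by ring
    have h2 : 3 * ‖v 0‖ * ‖v 2‖ ≤ CB ^ 2 + CP := by
      have e3 : ‖(3 : ℂ)‖ = 3 := by norm_num
      have h3 : 3 * ‖v 0‖ * ‖v 2‖ = ‖3 * v 0 * v 2‖ := by
        rw [norm_mul, norm_mul, e3]
      rw [h3, h1]
      refine (norm_sub_le _ _).trans (add_le_add ?_ hP)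
      rw [norm_pow]
      exact pow_le_pow_left₀ (norm_nonneg _) hB 2
    rw [hCC, le_div_iff₀ (by positivity)]
    have h6 : ‖v 2‖ * η ≤ ‖v 2‖ * ‖v 0‖ := mul_le_mul_of_nonneg_left ha (norm_nonneg _)
    linarith
  have hD : ‖v 3‖ ≤ CD := by
    have h1 : 27 * v 0 ^ 2 * v 3 = gcov v 1 0 - 2 * v 1 ^ 3 + 9 * v 0 * v 1 * v 2 := by
      rw [gcov10]
      ring
    have e2 : ‖(2 : ℂ)‖ = 2 := by norm_num
    have e9 : ‖(9 : ℂ)‖ = 9 := by norm_num
    have e27 : ‖(27 : ℂ)‖ = 27 := by norm_num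
    have h2 : 27 * ‖v 0‖ ^ 2 * ‖v 3‖ ≤ CG + 2 * CB ^ 3 + 9 * CA * CB * CC := by
      have h3 : 27 * ‖v 0‖ ^ 2 * ‖v 3‖ = ‖27 * v 0 ^ 2 * v 3‖ := by
        rw [norm_mul, norm_mul, norm_pow, e27]
      rw [h3, h1]
      refine (norm_add_le _ _).trans (add_le_add ((norm_sub_le _ _).trans (add_le_add hG ?_)) ?_)
      · rw [norm_mul, norm_pow, e2]
        have := pow_le_pow_left₀ (norm_nonneg _) hB 3
        linarith
      · rw [norm_mul, norm_mul, norm_mul, e9]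
        gcongr
    rw [hCD, le_div_iff₀ (by positivity)]
    have h6 : ‖v 3‖ * η ^ 2 ≤ ‖v 3‖ * ‖v 0‖ ^ 2 :=
      mul_le_mul_of_nonneg_left (pow_le_pow_left₀ hη.le ha 2) (norm_nonneg _)
    linarith
  intro i
  fin_cases i
  · exact hA.trans (by linarith)
  · exact hB.trans (by linarith)
  · exact hC.trans (by linarith)
  · exact hD.trans (by linarith)

end Pool.Agent.LeoC.H75
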