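import Pool.Agent.Helper75_LeoC.PscA

/-!
# Squad LEOC, module PSC: push forward of Lebesgue measure at a complex place
-/

set_option autoImplicit false
set_option maxHeartbeats 400000

open MeasureTheory Set
open Pool.Agent.LeoK Pool.Agent.LeoG Pool.Agent.LeoC

namespace Pool.Agent.LeoC.H75

/-- the size in terms of `A`, the covariant and `m` -/
noncomputable def XX (A G m : ℂ) : ℝ :=
  (‖(A + G / (27 * m) ^ (1 / 2 : ℂ)) / 2‖ ^ (2 / 3 : ℝ) +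
    ‖(A - G / (27 * m) ^ (1 / 2 : ℂ)) / 2‖ ^ (2 / 3 : ℝ)) / (2 * (‖m‖ / 27) ^ (1 / 6 : ℝ))

theorem hc_eq (v : Q4 ℂ) : hc v 1 0 =
    XX (v 0) (2 * v 1 ^ 3 - 9 * v 0 * v 1 * v 2 + 27 * v 0 ^ 2 * v 3) (mm v) := by
  have h1 : gval v 1 0 = v 0 := by
    unfold gval
    ring
  have h2 : gcov v 1 0 = 2 * v 1 ^ 3 - 9 * v 0 * v 1 * v 2 + 27 * v 0 ^ 2 * v 3 := by
    unfold gcov
    ring
  unfold hc XX
  rw [h1, h2]

theorem mm_eq {v : Q4 ℂ} (h : v 0 ≠ 0) : mm v =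
    ((2 * v 1 ^ 3 - 9 * v 0 * v 1 * v 2 + 27 * v 0 ^ 2 * v 3) ^ 2 -
      4 * (v 1 ^ 2 - 3 * v 0 * v 2) ^ 3) / (27 * v 0 ^ 2) := by
  unfold mm dsc
  field_simp
  ring

theorem meas_XX : Measurable fun p : ℂ × ℂ × ℂ => XX p.1 p.2.1 p.2.2 := by
  unfold XX
  have h1 : Measurable fun p : ℂ × ℂ × ℂ => (27 * p.2.2) ^ (1 / 2 : ℂ) :=
    (measurable_const.mul (measurable_snd.comp measurable_snd)).pow_const _
  have h2 : Measurable fun p : ℂ × ℂ × ℂ => p.2.1 / (27 * p.2.2) ^ (1 / 2 : ℂ) :=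
    (measurable_fst.comp measurable_snd).div h1
  refine Measurable.div (Measurable.add ?_ ?_) ?_
  · exact (((measurable_fst.add h2).div_const 2).norm).pow_const _
  · exact (((measurable_fst.sub h2).div_const 2).norm).pow_const _
  · exact measurable_const.mul ((((measurable_snd.comp measurable_snd).norm).div_const 27).pow_const _)

/-- the integrand -/
noncomputable def PP (k : ℝ × ℂ → ENNReal) (A G m : ℂ) : ENNReal :=
  if m = 0 then 0 else k (XX A G m, m)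

theorem meas_PP {k : ℝ × ℂ → ENNReal} (hk : Measurable k) :
    Measurable fun p : ℂ × ℂ × ℂ => PP k p.1 p.2.1 p.2.2 := by
  unfold PP
  refine Measurable.ite ?_ measurable_const (hk.comp (meas_XX.prodMk
    (measurable_snd.comp measurable_snd)))
  exact measurableSet_eq_fun (measurable_snd.comp measurable_snd) measurable_const

theorem lintC_affine' {c : ℂ} (hc : c ≠ 0) (b : ℂ) {f : ℂ → ENNReal} (hf : Measurable f) :
    ∫⁻ z, f (c * z + b) = ENNReal.ofReal (‖c‖ ^ 2)⁻¹ * ∫⁻ y, f y := by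
  have hpos : 0 < ‖c‖ ^ 2 := by
    have := norm_pos_iff.2 hc
    positivity
  rw [lintC_affine hc b hf, ← mul_assoc, ← ENNReal.ofReal_mul (by positivity),
    inv_mul_cancel₀ hpos.ne', ENNReal.ofReal_one, one_mul]

/-- integration over `P` -/
theorem stepP {k : ℝ × ℂ → ENNReal} (hk : Measurable k) {A : ℂ} (hA : A ≠ 0) (G : ℂ) :
    ENNReal.ofReal (729 * ‖A‖ ^ 4)⁻¹ * ∫⁻ P : ℂ, PP k A G ((G ^ 2 - 4 * P ^ 3) / (27 * A ^ 2)) =
      ∫⁻ m : ℂ, ENNReal.ofReal (1 / 48 * ‖(G ^ 2 - 27 * A ^ 2 * m) / 4‖ ^ (-(4 / 3) : ℝ)) *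
        PP k A G m := by
  have hA0 : 0 < ‖A‖ := norm_pos_iff.2 hA
  have hm0 : Measurable fun m : ℂ => PP k A G m := by
    have hz : Measurable fun m : ℂ => (A, G, m) := by fun_prop
    have := (meas_PP hk).comp hz
    exact this
  have hm1 : Measurable fun y : ℂ => PP k A G ((G ^ 2 - 4 * y) / (27 * A ^ 2)) :=
    hm0.comp (by fun_prop)
  have hm2 : Measurable fun y : ℂ => ENNReal.ofReal (1 / 3 * ‖y‖ ^ (-(4 / 3) : ℝ)) *
      PP k A G ((G ^ 2 - 4 * y) / (27 * A ^ 2)) :=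
    (Measurable.ennreal_ofReal (by fun_prop)).mul hm1
  have hc : -(27 * A ^ 2) / 4 ≠ 0 := by
    apply div_ne_zero _ (by norm_num)
    exact neg_ne_zero.2 (mul_ne_zero (by norm_num) (pow_ne_zero 2 hA))
  rw [lintC_cube hm1, lintC_affine hc (G ^ 2 / 4) hm2, ← mul_assoc,
    ← ENNReal.ofReal_mul (by positivity), ← lintegral_const_mul' _ _ ENNReal.ofReal_ne_top]
  refine lintegral_congr fun m => ?_
  have e1 : -(27 * A ^ 2) / 4 * m + G ^ 2 / 4 = (G ^ 2 - 27 * A ^ 2 * m) / 4 := by ring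
  have e2 : (G ^ 2 - 4 * ((G ^ 2 - 27 * A ^ 2 * m) / 4)) / (27 * A ^ 2) = m := by
    field_simp
    ring
  have e3 : ‖-(27 * A ^ 2) / 4‖ ^ 2 = 729 * ‖A‖ ^ 4 / 16 := by
    rw [norm_div, norm_neg, norm_mul, norm_pow]
    norm_num
    ring
  rw [e1, e2, e3, ← mul_assoc, ← ENNReal.ofReal_mul (by positivity)]
  congr 2
  field_simp
  norm_num
  ring

theorem two_var {Q : ℂ × ℂ → ENNReal} (hQ : Measurable Q) :
    ∫⁻ A : ℂ, ∫⁻ g : ℂ, Q ((A + g) / 2, (A - g) / 2) = 4 * ∫⁻ a : ℂ, ∫⁻ b : ℂ, Q (a, b) := by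
  have h1 : ∀ A : ℂ, ∫⁻ g : ℂ, Q ((A + g) / 2, (A - g) / 2) = 4 * ∫⁻ a : ℂ, Q (a, A - a) := by
    intro A
    have hm : Measurable fun g : ℂ => Q ((A + g) / 2, (A - g) / 2) := hQ.comp (by fun_prop)
    rw [lintC_affine (c := 2) (by norm_num) (-A) hm]
    have e1 : ENNReal.ofReal (‖(2 : ℂ)‖ ^ 2) = 4 := by
      norm_num
    rw [e1]
    congr 1
    refine lintegral_congr fun a => ?_
    have e2 : (A + (2 * a + -A)) / 2 = a := by ring
    have e3 : (A - (2 * a + -A)) / 2 = A - a := by ring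
    rw [e2, e3]
  simp only [h1]
  rw [lintegral_const_mul' _ _ (by norm_num)]
  congr 1
  have hm : Measurable fun p : ℂ × ℂ => Q (p.2, p.1 - p.2) := hQ.comp (by fun_prop)
  rw [lintegral_lintegral_swap hm.aemeasurable]
  refine lintegral_congr fun a => ?_
  exact lintegral_sub_right_eq_self (fun b => Q (a, b)) a

theorem const_eq {t : ℝ} (ht : 0 < t) :
    27 * t * (4 * (1 / 48 * (27 * t) ^ (-(4 / 3) : ℝ)) * (9 * Real.pi ^ 2) *
      (2 * (t / 27) ^ (1 / 6 : ℝ)) ^ 2) = Real.pi ^ 2 / 3 := by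
  set u : ℝ := t ^ (1 / 3 : ℝ) with hu
  have hu0 : 0 < u := Real.rpow_pos_of_pos ht _
  have hu3 : t = u ^ 3 := by
    rw [hu, ← Real.rpow_natCast, ← Real.rpow_mul ht.le]
    norm_num
  have e1 : (27 * t) ^ (-(4 / 3) : ℝ) = ((3 * u) ^ 4)⁻¹ := by
    have : 27 * t = (3 * u) ^ 3 := by rw [hu3]; ring
    rw [this, ← Real.rpow_natCast, ← Real.rpow_mul (by positivity), ← Real.rpow_natCast,
      ← Real.rpow_neg (by positivity)]
    congr 1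
    norm_num
  have e2 : ((t / 27) ^ (1 / 6 : ℝ)) ^ 2 = u / 3 := by
    have : t / 27 = (u / 3) ^ 3 := by rw [hu3]; ring
    rw [← Real.rpow_natCast, ← Real.rpow_mul (by positivity), this, ← Real.rpow_natCast,
      ← Real.rpow_mul (by positivity)]
    norm_num
  rw [mul_pow, e1, e2, hu3]
  field_simp
  norm_num

/-- integration over `A` and `G` -/
theorem stepAG {k : ℝ × ℂ → ENNReal} (hk : Measurable k) {m : ℂ} (hm : m ≠ 0) :
    ∫⁻ A : ℂ, ∫⁻ G : ℂ,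
      ENNReal.ofReal (1 / 48 * ‖(G ^ 2 - 27 * A ^ 2 * m) / 4‖ ^ (-(4 / 3) : ℝ)) *
        k (XX A G m, m) =
      ∫⁻ x in Ioi (0 : ℝ), ENNReal.ofReal (Real.pi ^ 2 / 3 * x) * k (x, m) := by
  have hm0 : 0 < ‖m‖ := norm_pos_iff.2 hm
  obtain ⟨w, hw⟩ : ∃ w : ℂ, w = (27 * m) ^ (1 / 2 : ℂ) := ⟨_, rfl⟩
  have hw2 : w ^ 2 = 27 * m := by
    rw [hw]
    have := Complex.cpow_nat_inv_pow (27 * m) (n := 2) (by norm_num)
    rw [one_div]
    exact_mod_cast this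
  have hw0 : w ≠ 0 := by
    intro h
    rw [h] at hw2
    have : (27 : ℂ) * m ≠ 0 := mul_ne_zero (by norm_num) hm
    exact this (by rw [← hw2]; ring)
  have hwn : ‖w‖ ^ 2 = 27 * ‖m‖ := by
    rw [← norm_pow, hw2, norm_mul]
    norm_num
  obtain ⟨μ, hμ⟩ : ∃ μ : ℝ, μ = (‖m‖ / 27) ^ (1 / 6 : ℝ) := ⟨_, rfl⟩
  have hμ0 : 0 < μ := by
    rw [hμ]
    positivity
  have h27 : ‖27 * m‖ = 27 * ‖m‖ := by
    rw [norm_mul]
    norm_num
  -- the function of two variables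
  obtain ⟨Q, hQ⟩ : ∃ Q : ℂ × ℂ → ENNReal, Q = fun p =>
      ENNReal.ofReal (1 / 48 * (27 * ‖m‖) ^ (-(4 / 3) : ℝ)) *
      (ENNReal.ofReal (‖p.1‖ ^ (-(4 / 3) : ℝ)) * (ENNReal.ofReal (‖p.2‖ ^ (-(4 / 3) : ℝ)) *
        k ((‖p.1‖ ^ (2 / 3 : ℝ) + ‖p.2‖ ^ (2 / 3 : ℝ)) / (2 * μ), m))) := ⟨_, rfl⟩
  have hQm : Measurable Q := by
    rw [hQ]
    refine measurable_const.mul ((Measurable.ennreal_ofReal (by fun_prop)).mul
      ((Measurable.ennreal_ofReal (by fun_prop)).mul (hk.comp (by fun_prop))))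
  have h1 : ∀ A : ℂ, (∫⁻ G : ℂ,
      ENNReal.ofReal (1 / 48 * ‖(G ^ 2 - 27 * A ^ 2 * m) / 4‖ ^ (-(4 / 3) : ℝ)) *
        k (XX A G m, m)) =
      ENNReal.ofReal (27 * ‖m‖) * ∫⁻ g : ℂ, Q ((A + g) / 2, (A - g) / 2) := by
    intro A
    have hmf : Measurable fun G : ℂ =>
        ENNReal.ofReal (1 / 48 * ‖(G ^ 2 - 27 * A ^ 2 * m) / 4‖ ^ (-(4 / 3) : ℝ)) *
          k (XX A G m, m) := by
      refine (Measurable.ennreal_ofReal (by fun_prop)).mul (hk.comp (Measurable.prodMk ?_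
        measurable_const))
      have hz : Measurable fun G : ℂ => (A, G, m) := by fun_prop
      have := meas_XX.comp hz
      exact this
    rw [lintC_mul hw0 hmf, hwn]
    congr 1
    refine lintegral_congr fun g => ?_
    rw [hQ]
    simp only
    have e1 : ((w * g) ^ 2 - 27 * A ^ 2 * m) / 4 = -(27 * m * (((A + g) / 2) * ((A - g) / 2))) := by
      rw [mul_pow, hw2]
      ring
    have e2 : XX A (w * g) m = (‖(A + g) / 2‖ ^ (2 / 3 : ℝ) + ‖(A - g) / 2‖ ^ (2 / 3 : ℝ)) /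
        (2 * μ) := by
      unfold XX
      rw [← hw, ← hμ]
      have : w * g / w = g := by field_simp
      rw [this]
    have e3 : 1 / 48 * ‖-(27 * m * (((A + g) / 2) * ((A - g) / 2)))‖ ^ (-(4 / 3) : ℝ) =
        1 / 48 * (27 * ‖m‖) ^ (-(4 / 3) : ℝ) *
          (‖(A + g) / 2‖ ^ (-(4 / 3) : ℝ) * ‖(A - g) / 2‖ ^ (-(4 / 3) : ℝ)) := by
      rw [norm_neg, norm_mul (27 * m), h27, norm_mul ((A + g) / 2),
        Real.mul_rpow (x := 27 * ‖m‖) (by positivity) (by positivity),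
        Real.mul_rpow (x := ‖(A + g) / 2‖) (norm_nonneg _) (norm_nonneg _), mul_assoc]
    rw [e1, e2, e3, ENNReal.ofReal_mul (by positivity), ENNReal.ofReal_mul
      (p := ‖(A + g) / 2‖ ^ (-(4 / 3) : ℝ)) (by positivity), mul_assoc, mul_assoc]
  simp only [h1]
  rw [lintegral_const_mul' _ _ ENNReal.ofReal_ne_top, two_var hQm]
  have h2 : ∫⁻ a : ℂ, ∫⁻ b : ℂ, Q (a, b) =
      ENNReal.ofReal (1 / 48 * (27 * ‖m‖) ^ (-(4 / 3) : ℝ)) * (ENNReal.ofReal (9 * Real.pi ^ 2) *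
        (ENNReal.ofReal ((2 * μ) ^ 2) * ∫⁻ x in Ioi (0 : ℝ), ENNReal.ofReal x * k (x, m))) := by
    have hF : Measurable fun t : ℝ => k (t / (2 * μ), m) := hk.comp (by fun_prop)
    rw [hQ]
    simp only
    have e3 : ∀ a : ℂ, (∫⁻ b : ℂ, ENNReal.ofReal (1 / 48 * (27 * ‖m‖) ^ (-(4 / 3) : ℝ)) *
        (ENNReal.ofReal (‖a‖ ^ (-(4 / 3) : ℝ)) * (ENNReal.ofReal (‖b‖ ^ (-(4 / 3) : ℝ)) *
          k ((‖a‖ ^ (2 / 3 : ℝ) + ‖b‖ ^ (2 / 3 : ℝ)) / (2 * μ), m)))) =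
        ENNReal.ofReal (1 / 48 * (27 * ‖m‖) ^ (-(4 / 3) : ℝ)) * ∫⁻ b : ℂ,
        (ENNReal.ofReal (‖a‖ ^ (-(4 / 3) : ℝ)) * (ENNReal.ofReal (‖b‖ ^ (-(4 / 3) : ℝ)) *
          k ((‖a‖ ^ (2 / 3 : ℝ) + ‖b‖ ^ (2 / 3 : ℝ)) / (2 * μ), m))) := by
      intro a
      rw [lintegral_const_mul' _ _ ENNReal.ofReal_ne_top]
    simp only [e3]
    rw [lintegral_const_mul' _ _ ENNReal.ofReal_ne_top, lintC_two hF,
      lint_dil (c := 2 * μ) (by positivity)]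
    have e4 : ∀ x : ℝ, 2 * μ * x / (2 * μ) = x := by
      intro x
      field_simp
    simp only [e4]
  rw [h2]
  have e5 : ∀ x : ℝ, ENNReal.ofReal (Real.pi ^ 2 / 3 * x) * k (x, m) =
      ENNReal.ofReal (Real.pi ^ 2 / 3) * (ENNReal.ofReal x * k (x, m)) := by
    intro x
    rw [ENNReal.ofReal_mul (by positivity), mul_assoc]
  simp only [e5]
  rw [lintegral_const_mul' _ _ ENNReal.ofReal_ne_top, ← const_eq hm0, ← hμ]
  obtain ⟨J, hJ⟩ : ∃ J : ENNReal, J = ∫⁻ x in Ioi (0 : ℝ), ENNReal.ofReal x * k (x, m) :=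
    ⟨_, rfl⟩
  rw [← hJ]
  have h4 : (4 : ENNReal) = ENNReal.ofReal 4 := by norm_num
  rw [h4, ← mul_assoc, ← mul_assoc, ← mul_assoc, ← mul_assoc, ← ENNReal.ofReal_mul (by positivity),
    ← ENNReal.ofReal_mul (by positivity), ← ENNReal.ofReal_mul (by positivity),
    ← ENNReal.ofReal_mul (by positivity)]
  congr 2
  ring

theorem core {k : ℝ × ℂ → ENNReal} (hk : Measurable k) :
    ∫⁻ A : ℂ, ENNReal.ofReal (729 * ‖A‖ ^ 4)⁻¹ * ∫⁻ P : ℂ, ∫⁻ G : ℂ,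
      PP k A G ((G ^ 2 - 4 * P ^ 3) / (27 * A ^ 2)) =
      ∫⁻ m : ℂ, ∫⁻ x in Ioi (0 : ℝ), ENNReal.ofReal (Real.pi ^ 2 / 3 * x) * k (x, m) := by
  have hPP := meas_PP hk
  have h1 : ∀ A : ℂ, (∫⁻ P : ℂ, ∫⁻ G : ℂ, PP k A G ((G ^ 2 - 4 * P ^ 3) / (27 * A ^ 2))) =
      ∫⁻ G : ℂ, ∫⁻ P : ℂ, PP k A G ((G ^ 2 - 4 * P ^ 3) / (27 * A ^ 2)) := by
    intro A
    have : Measurable fun p : ℂ × ℂ => PP k A p.2 ((p.2 ^ 2 - 4 * p.1 ^ 3) / (27 * A ^ 2)) := by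
      have hz : Measurable fun p : ℂ × ℂ =>
        (A, p.2, (p.2 ^ 2 - 4 * p.1 ^ 3) / (27 * A ^ 2)) := by fun_prop
      have := hPP.comp hz
      exact this
    exact lintegral_lintegral_swap this.aemeasurable
  have h2 : ∫⁻ A : ℂ, ENNReal.ofReal (729 * ‖A‖ ^ 4)⁻¹ * ∫⁻ P : ℂ, ∫⁻ G : ℂ,
      PP k A G ((G ^ 2 - 4 * P ^ 3) / (27 * A ^ 2)) =
      ∫⁻ A : ℂ, ∫⁻ G : ℂ, ∫⁻ m : ℂ,
        ENNReal.ofReal (1 / 48 * ‖(G ^ 2 - 27 * A ^ 2 * m) / 4‖ ^ (-(4 / 3) : ℝ)) *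
          PP k A G m := by
    refine lintegral_congr_ae ?_
    filter_upwards [Measure.ae_ne volume (0 : ℂ)] with A hA
    rw [h1, ← lintegral_const_mul' _ _ ENNReal.ofReal_ne_top]
    refine lintegral_congr fun G => ?_
    exact stepP hk hA G
  rw [h2]
  have hW : Measurable fun p : ℂ × ℂ × ℂ =>
      ENNReal.ofReal (1 / 48 * ‖(p.2.1 ^ 2 - 27 * p.1 ^ 2 * p.2.2) / 4‖ ^ (-(4 / 3) : ℝ)) *
        PP k p.1 p.2.1 p.2.2 :=
    (Measurable.ennreal_ofReal (by fun_prop)).mul hPP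
  have h3 : ∀ A : ℂ, (∫⁻ G : ℂ, ∫⁻ m : ℂ,
      ENNReal.ofReal (1 / 48 * ‖(G ^ 2 - 27 * A ^ 2 * m) / 4‖ ^ (-(4 / 3) : ℝ)) * PP k A G m) =
      ∫⁻ m : ℂ, ∫⁻ G : ℂ,
      ENNReal.ofReal (1 / 48 * ‖(G ^ 2 - 27 * A ^ 2 * m) / 4‖ ^ (-(4 / 3) : ℝ)) * PP k A G m := by
    intro A
    have : Measurable fun p : ℂ × ℂ =>
        ENNReal.ofReal (1 / 48 * ‖(p.1 ^ 2 - 27 * A ^ 2 * p.2) / 4‖ ^ (-(4 / 3) : ℝ)) *
          PP k A p.1 p.2 := by
      have hz : Measurable fun p : ℂ × ℂ => (A, p.1, p.2) := by fun_prop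
      have := hW.comp hz
      exact this
    exact lintegral_lintegral_swap this.aemeasurable
  simp only [h3]
  have h4 : Measurable fun q : ℂ × ℂ => ∫⁻ G : ℂ,
      ENNReal.ofReal (1 / 48 * ‖(G ^ 2 - 27 * q.1 ^ 2 * q.2) / 4‖ ^ (-(4 / 3) : ℝ)) *
        PP k q.1 G q.2 := by
    have : Measurable fun p : (ℂ × ℂ) × ℂ =>
        ENNReal.ofReal (1 / 48 * ‖(p.2 ^ 2 - 27 * p.1.1 ^ 2 * p.1.2) / 4‖ ^ (-(4 / 3) : ℝ)) *
          PP k p.1.1 p.2 p.1.2 := by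
      have hz : Measurable fun p : (ℂ × ℂ) × ℂ => (p.1.1, p.2, p.1.2) := by fun_prop
      have := hW.comp hz
      exact this
    exact this.lintegral_prod_right'
  rw [lintegral_lintegral_swap h4.aemeasurable]
  refine lintegral_congr_ae ?_
  filter_upwards [Measure.ae_ne volume (0 : ℂ)] with m hm
  rw [← stepAG hk hm]
  refine lintegral_congr fun A => lintegral_congr fun G => ?_
  unfold PP
  rw [if_neg hm]

theorem inner_A {Ψ : ℂ × ℂ × ℂ → ENNReal} (hΨ : Measurable Ψ) {A : ℂ} (hA : A ≠ 0) :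
    ∫⁻ B : ℂ, ∫⁻ C : ℂ, ∫⁻ D : ℂ, Ψ (B / (3 * A), B ^ 2 - 3 * A * C,
      2 * B ^ 3 - 9 * A * B * C + 27 * A ^ 2 * D) =
      ENNReal.ofReal (729 * ‖A‖ ^ 4)⁻¹ * ∫⁻ s : ℂ, ∫⁻ P : ℂ, ∫⁻ G : ℂ, Ψ (s, P, G) := by
  have hA0 : 0 < ‖A‖ := norm_pos_iff.2 hA
  have h27 : 27 * A ^ 2 ≠ 0 := mul_ne_zero (by norm_num) (pow_ne_zero 2 hA)
  have h3 : -(3 * A) ≠ 0 := neg_ne_zero.2 (mul_ne_zero (by norm_num) hA)
  have h3' : (3 * A)⁻¹ ≠ 0 := inv_ne_zero (mul_ne_zero (by norm_num) hA)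
  have hD : ∀ B C : ℂ, (∫⁻ D : ℂ, Ψ (B / (3 * A), B ^ 2 - 3 * A * C,
      2 * B ^ 3 - 9 * A * B * C + 27 * A ^ 2 * D)) =
      ENNReal.ofReal (‖27 * A ^ 2‖ ^ 2)⁻¹ * ∫⁻ G : ℂ, Ψ (B / (3 * A), B ^ 2 - 3 * A * C, G) := by
    intro B C
    have hm : Measurable fun G : ℂ => Ψ (B / (3 * A), B ^ 2 - 3 * A * C, G) :=
      hΨ.comp (by fun_prop)
    rw [← lintC_affine' h27 (2 * B ^ 3 - 9 * A * B * C) hm]
    refine lintegral_congr fun D => ?_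
    rw [add_comm]
  simp only [hD]
  have hJ : Measurable fun q : ℂ × ℂ => ∫⁻ G : ℂ, Ψ (q.1, q.2, G) := by
    have : Measurable fun p : (ℂ × ℂ) × ℂ => Ψ (p.1.1, p.1.2, p.2) := hΨ.comp (by fun_prop)
    exact this.lintegral_prod_right'
  have hC : ∀ B : ℂ, (∫⁻ C : ℂ, ENNReal.ofReal (‖27 * A ^ 2‖ ^ 2)⁻¹ *
      ∫⁻ G : ℂ, Ψ (B / (3 * A), B ^ 2 - 3 * A * C, G)) =
      ENNReal.ofReal (‖27 * A ^ 2‖ ^ 2)⁻¹ * (ENNReal.ofReal (‖-(3 * A)‖ ^ 2)⁻¹ *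
        ∫⁻ P : ℂ, ∫⁻ G : ℂ, Ψ (B / (3 * A), P, G)) := by
    intro B
    rw [lintegral_const_mul' _ _ ENNReal.ofReal_ne_top]
    congr 1
    have hm : Measurable fun P : ℂ => ∫⁻ G : ℂ, Ψ (B / (3 * A), P, G) :=
      hJ.comp (by fun_prop : Measurable fun P : ℂ => (B / (3 * A), P))
    rw [← lintC_affine' h3 (B ^ 2) hm]
    refine lintegral_congr fun C => ?_
    have : -(3 * A) * C + B ^ 2 = B ^ 2 - 3 * A * C := by ring
    rw [this]
  simp only [hC]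
  rw [lintegral_const_mul' _ _ ENNReal.ofReal_ne_top, lintegral_const_mul' _ _
    ENNReal.ofReal_ne_top]
  have hm : Measurable fun s : ℂ => ∫⁻ P : ℂ, ∫⁻ G : ℂ, Ψ (s, P, G) := by
    exact hJ.lintegral_prod_right'
  have hB : (∫⁻ B : ℂ, ∫⁻ P : ℂ, ∫⁻ G : ℂ, Ψ (B / (3 * A), P, G)) =
      ENNReal.ofReal (‖(3 * A)⁻¹‖ ^ 2)⁻¹ * ∫⁻ s : ℂ, ∫⁻ P : ℂ, ∫⁻ G : ℂ, Ψ (s, P, G) := by
    rw [← lintC_affine' h3' 0 hm]
    refine lintegral_congr fun B => ?_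
    have : (3 * A)⁻¹ * B + 0 = B / (3 * A) := by
      rw [add_zero, mul_comm, div_eq_mul_inv]
    rw [this]
  rw [hB, ← mul_assoc, ← mul_assoc, ← ENNReal.ofReal_mul (by positivity),
    ← ENNReal.ofReal_mul (by positivity)]
  congr 2
  rw [norm_neg, norm_inv, norm_mul, norm_pow, norm_mul]
  norm_num
  field_simp
  norm_num

theorem psc : PscStmt := by
  intro h hh
  have hmm : Measurable fun w : Fin 4 → ℂ => mm w := by
    unfold mm dsc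
    fun_prop
  have hhc : Measurable fun w : Fin 4 → ℂ => hc w 1 0 := by
    have hz : Measurable fun v : Fin 4 → ℂ =>
        (v 0, 2 * v 1 ^ 3 - 9 * v 0 * v 1 * v 2 + 27 * v 0 ^ 2 * v 3, mm v) :=
      (measurable_pi_apply 0).prodMk (Measurable.prodMk (by fun_prop) hmm)
    have := meas_XX.comp hz
    simp only [hc_eq]
    exact this
  have hS : MeasurableSet {w : Fin 4 → ℂ | w 0 ≠ 0 ∧ mm w ≠ 0} :=
    (measurableSet_eq_fun (measurable_pi_apply 0) measurable_const).compl.inter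
      (measurableSet_eq_fun hmm measurable_const).compl
  have hf : Measurable fun w : Fin 4 → ℂ => h (w 1 / (3 * w 0), hc w 1 0, mm w) :=
    hh.comp (Measurable.prodMk (by fun_prop) (hhc.prodMk hmm))
  rw [← lintegral_indicator hS, lintC_fin4 (hf.indicator hS)]
  have hk : ∀ s : ℂ, Measurable fun p : ℝ × ℂ => h (s, p.1, p.2) := fun s => hh.comp (by fun_prop)
  have h1 : ∀ A : ℂ, (∫⁻ B : ℂ, ∫⁻ C : ℂ, ∫⁻ D : ℂ,
      {w : Fin 4 → ℂ | w 0 ≠ 0 ∧ mm w ≠ 0}.indicator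
        (fun w : Fin 4 → ℂ => h (w 1 / (3 * w 0), hc w 1 0, mm w)) ![A, B, C, D]) =
      ENNReal.ofReal (729 * ‖A‖ ^ 4)⁻¹ * ∫⁻ s : ℂ, ∫⁻ P : ℂ, ∫⁻ G : ℂ,
        PP (fun p => h (s, p.1, p.2)) A G ((G ^ 2 - 4 * P ^ 3) / (27 * A ^ 2)) := by
    intro A
    by_cases hA : A = 0
    · subst hA
      have : ∀ B C D : ℂ, {w : Fin 4 → ℂ | w 0 ≠ 0 ∧ mm w ≠ 0}.indicator
          (fun w : Fin 4 → ℂ => h (w 1 / (3 * w 0), hc w 1 0, mm w)) ![0, B, C, D] = 0 := by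
        intro B C D
        exact indicator_of_notMem (fun hw => hw.1 rfl) _
      simp only [this]
      simp
    · have hΨ : Measurable fun q : ℂ × ℂ × ℂ =>
          PP (fun p => h (q.1, p.1, p.2)) A q.2.2
            ((q.2.2 ^ 2 - 4 * q.2.1 ^ 3) / (27 * A ^ 2)) := by
        unfold PP
        refine Measurable.ite ?_ measurable_const ?_
        · exact measurableSet_eq_fun (by fun_prop) measurable_const
        · have hz : Measurable fun q : ℂ × ℂ × ℂ =>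
            (A, q.2.2, (q.2.2 ^ 2 - 4 * q.2.1 ^ 3) / (27 * A ^ 2)) := by fun_prop
          have hz2 := meas_XX.comp hz
          refine hh.comp (measurable_fst.prodMk (Measurable.prodMk ?_ (by fun_prop)))
          exact hz2
      rw [← inner_A hΨ hA]
      refine lintegral_congr fun B => lintegral_congr fun C => lintegral_congr fun D => ?_
      have e0 : (![A, B, C, D] : Fin 4 → ℂ) 0 = A := rfl
      have e1 : mm (![A, B, C, D] : Fin 4 → ℂ) =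
          ((2 * B ^ 3 - 9 * A * B * C + 27 * A ^ 2 * D) ^ 2 -
            4 * (B ^ 2 - 3 * A * C) ^ 3) / (27 * A ^ 2) := mm_eq hA
      have e2 : hc (![A, B, C, D] : Fin 4 → ℂ) 1 0 =
          XX A (2 * B ^ 3 - 9 * A * B * C + 27 * A ^ 2 * D)
            (mm (![A, B, C, D] : Fin 4 → ℂ)) := hc_eq _
      unfold PP
      rw [← e1]
      by_cases hz : mm (![A, B, C, D] : Fin 4 → ℂ) = 0
      · rw [if_pos hz, indicator_of_notMem (fun hw => hw.2 hz)]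
      · rw [if_neg hz, indicator_of_mem (by exact ⟨hA, hz⟩), e2]
        rfl
  simp only [h1]
  -- exchange `A` and `s`
  have hK : Measurable fun p : ℂ × ℂ => ENNReal.ofReal (729 * ‖p.1‖ ^ 4)⁻¹ *
      ∫⁻ P : ℂ, ∫⁻ G : ℂ, PP (fun q => h (p.2, q.1, q.2)) p.1 G
        ((G ^ 2 - 4 * P ^ 3) / (27 * p.1 ^ 2)) := by
    have hΨ : Measurable fun r : ((ℂ × ℂ) × ℂ) × ℂ =>
        PP (fun q => h (r.1.1.2, q.1, q.2)) r.1.1.1 r.2
          ((r.2 ^ 2 - 4 * r.1.2 ^ 3) / (27 * r.1.1.1 ^ 2)) := by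
      unfold PP
      refine Measurable.ite ?_ measurable_const ?_
      · exact measurableSet_eq_fun (by fun_prop) measurable_const
      · have hz : Measurable fun r : ((ℂ × ℂ) × ℂ) × ℂ =>
          (r.1.1.1, r.2, (r.2 ^ 2 - 4 * r.1.2 ^ 3) / (27 * r.1.1.1 ^ 2)) := by fun_prop
        have hz2 := meas_XX.comp hz
        refine hh.comp (Measurable.prodMk (by fun_prop) (Measurable.prodMk ?_ (by fun_prop)))
        exact hz2
    refine (Measurable.ennreal_ofReal (by fun_prop)).mul ?_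
    exact hΨ.lintegral_prod_right'.lintegral_prod_right'
  have h2 : ∀ A : ℂ, ENNReal.ofReal (729 * ‖A‖ ^ 4)⁻¹ * (∫⁻ s : ℂ, ∫⁻ P : ℂ, ∫⁻ G : ℂ,
      PP (fun p => h (s, p.1, p.2)) A G ((G ^ 2 - 4 * P ^ 3) / (27 * A ^ 2))) =
      ∫⁻ s : ℂ, ENNReal.ofReal (729 * ‖A‖ ^ 4)⁻¹ * ∫⁻ P : ℂ, ∫⁻ G : ℂ,
      PP (fun p => h (s, p.1, p.2)) A G ((G ^ 2 - 4 * P ^ 3) / (27 * A ^ 2)) := by
    intro A
    rw [lintegral_const_mul' _ _ ENNReal.ofReal_ne_top]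
  simp only [h2]
  rw [lintegral_lintegral_swap hK.aemeasurable]
  have h3 : ∀ s : ℂ, (∫⁻ A : ℂ, ENNReal.ofReal (729 * ‖A‖ ^ 4)⁻¹ * ∫⁻ P : ℂ, ∫⁻ G : ℂ,
      PP (fun p => h (s, p.1, p.2)) A G ((G ^ 2 - 4 * P ^ 3) / (27 * A ^ 2))) =
      ∫⁻ m : ℂ, ∫⁻ x in Ioi (0 : ℝ), ENNReal.ofReal (Real.pi ^ 2 / 3 * x) * h (s, x, m) :=
    fun s => core (hk s)
  simp only [h3]
  -- the right hand side
  have hT : MeasurableSet {u : ℂ × ℝ × ℂ | 0 < u.2.1} :=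
    measurableSet_lt measurable_const (measurable_fst.comp measurable_snd)
  have hR : Measurable fun u : ℂ × ℝ × ℂ => h u * ENNReal.ofReal (Real.pi ^ 2 / 3 * u.2.1) :=
    hh.mul (Measurable.ennreal_ofReal (by fun_prop))
  rw [← lintegral_indicator hT, show (volume : Measure (ℂ × ℝ × ℂ)) =
    (volume : Measure ℂ).prod volume from rfl, lintegral_prod _ (hR.indicator hT).aemeasurable]
  refine lintegral_congr fun s => ?_
  have hR2 : Measurable fun v : ℝ × ℂ => {u : ℂ × ℝ × ℂ | 0 < u.2.1}.indicator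
      (fun u : ℂ × ℝ × ℂ => h u * ENNReal.ofReal (Real.pi ^ 2 / 3 * u.2.1)) (s, v) :=
    (hR.indicator hT).comp (by fun_prop : Measurable fun v : ℝ × ℂ => (s, v))
  rw [show (volume : Measure (ℝ × ℂ)) = (volume : Measure ℝ).prod volume from rfl,
    lintegral_prod _ hR2.aemeasurable]
  have hL : Measurable fun v : ℂ × ℝ => ENNReal.ofReal (Real.pi ^ 2 / 3 * v.2) * h (s, v.2, v.1) :=
    (Measurable.ennreal_ofReal (by fun_prop)).mul (hh.comp (by fun_prop))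
  rw [lintegral_lintegral_swap hL.aemeasurable, ← lintegral_indicator measurableSet_Ioi]
  refine lintegral_congr fun x => ?_
  by_cases hx : 0 < x
  · rw [indicator_of_mem (by exact hx)]
    refine lintegral_congr fun m => ?_
    rw [indicator_of_mem (by exact hx), mul_comm]
  · rw [indicator_of_notMem (by exact hx)]
    have : ∀ m : ℂ, {u : ℂ × ℝ × ℂ | 0 < u.2.1}.indicator
        (fun u : ℂ × ℝ × ℂ => h u * ENNReal.ofReal (Real.pi ^ 2 / 3 * u.2.1)) (s, x, m) = 0 :=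
      fun m => indicator_of_notMem (by exact hx) _
    simp only [this, lintegral_zero]

end Pool.Agent.LeoC.H75
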