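import Pool.Agent.LeoC.UpStmts

/-!
# Squad LEOC, module PSC: substitutions in one complex variable
-/

set_option autoImplicit false

open MeasureTheory Set

namespace Pool.Agent.LeoC.H75

/-! ### affine substitutions -/

theorem lintC_mul {c : ℂ} (hc : c ≠ 0) {f : ℂ → ENNReal} (hf : Measurable f) :
    ∫⁻ y, f y = ENNReal.ofReal (‖c‖ ^ 2) * ∫⁻ z, f (c * z) := by
  have hpos : 0 < ‖c‖ ^ 2 := by
    have := norm_pos_iff.2 hc
    positivity
  have hdet : LinearMap.det (LinearMap.mulLeft ℝ c : ℂ →ₗ[ℝ] ℂ) = ‖c‖ ^ 2 := by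
    have h1 : Algebra.norm ℝ c = Complex.normSq c := Algebra.norm_complex_apply c
    rw [Algebra.norm_apply] at h1
    rw [Complex.sq_norm]
    exact h1
  have hne : LinearMap.det (LinearMap.mulLeft ℝ c : ℂ →ₗ[ℝ] ℂ) ≠ 0 := by
    rw [hdet]
    exact hpos.ne'
  have h1 := Measure.map_linearMap_addHaar_eq_smul_addHaar (volume : Measure ℂ) hne
  rw [hdet, abs_of_pos (inv_pos.2 hpos)] at h1
  have hm : Measurable (LinearMap.mulLeft ℝ c : ℂ →ₗ[ℝ] ℂ) := by
    show Measurable fun z : ℂ => c * z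
    fun_prop
  have h2 : ∫⁻ z, f (c * z) = ENNReal.ofReal (‖c‖ ^ 2)⁻¹ * ∫⁻ y, f y := by
    rw [← smul_eq_mul, ← lintegral_smul_measure, ← h1, lintegral_map hf hm]
    rfl
  rw [h2, ← mul_assoc, ← ENNReal.ofReal_mul hpos.le, mul_inv_cancel₀ hpos.ne', ENNReal.ofReal_one,
    one_mul]

theorem lintC_affine {c : ℂ} (hc : c ≠ 0) (b : ℂ) {f : ℂ → ENNReal} (hf : Measurable f) :
    ∫⁻ y, f y = ENNReal.ofReal (‖c‖ ^ 2) * ∫⁻ z, f (c * z + b) := by
  have h1 : ∫⁻ y, f y = ∫⁻ y, f (y + b) := (lintegral_add_right_eq_self f b).symm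
  rw [h1]
  exact lintC_mul hc (f := fun y => f (y + b)) (hf.comp (measurable_id.add_const b))

/-! ### powers -/

theorem lint_rpow {α : ℝ} (hα : 0 < α) (g : ℝ → ENNReal) :
    ∫⁻ R in Ioi (0 : ℝ), g R =
      ∫⁻ ρ in Ioi (0 : ℝ), ENNReal.ofReal (α * ρ ^ (α - 1)) * g (ρ ^ α) := by
  have himg : (fun ρ : ℝ => ρ ^ α) '' Ioi 0 = Ioi 0 := by
    ext R
    constructor
    · rintro ⟨ρ, hρ, rfl⟩
      exact Real.rpow_pos_of_pos hρ _
    · intro hR
      have hR' : 0 < R := hR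
      refine ⟨R ^ α⁻¹, Real.rpow_pos_of_pos hR' _, ?_⟩
      simp only
      rw [← Real.rpow_mul hR'.le, inv_mul_cancel₀ hα.ne', Real.rpow_one]
  have hinj : InjOn (fun ρ : ℝ => ρ ^ α) (Ioi 0) := by
    intro a ha b hb hab
    have ha' : (0 : ℝ) < a := ha
    have hb' : (0 : ℝ) < b := hb
    have h1 := congrArg (fun t : ℝ => t ^ α⁻¹) hab
    simp only at h1
    rwa [← Real.rpow_mul ha'.le, ← Real.rpow_mul hb'.le, mul_inv_cancel₀ hα.ne', Real.rpow_one,
      Real.rpow_one] at h1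
  have hder : ∀ ρ ∈ Ioi (0 : ℝ), HasDerivWithinAt (fun ρ : ℝ => ρ ^ α) (α * ρ ^ (α - 1))
      (Ioi 0) ρ := by
    intro ρ hρ
    have hρ' : (0 : ℝ) < ρ := hρ
    exact (Real.hasDerivAt_rpow_const (Or.inl hρ'.ne')).hasDerivWithinAt
  have hcv := lintegral_image_eq_lintegral_abs_deriv_mul measurableSet_Ioi hder hinj g
  rw [himg] at hcv
  rw [hcv]
  refine setLIntegral_congr_fun measurableSet_Ioi fun ρ hρ => ?_
  have hρ' : (0 : ℝ) < ρ := hρ
  have := Real.rpow_pos_of_pos hρ' (α - 1)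
  rw [abs_of_pos (by positivity)]

/-! ### polar coordinates -/

theorem lintC_polar {f : ℂ → ENNReal} (hf : Measurable f) :
    ∫⁻ z, f z = ∫⁻ r in Ioi (0 : ℝ), ENNReal.ofReal r *
      ∫⁻ θ in Ioo (-Real.pi) Real.pi, f (r * Complex.exp (θ * Complex.I)) := by
  rw [← Complex.lintegral_comp_polarCoord_symm f]
  have hm : Measurable fun p : ℝ × ℝ =>
      ENNReal.ofReal p.1 * f (p.1 * Complex.exp (p.2 * Complex.I)) :=
    (Measurable.ennreal_ofReal measurable_fst).mul (hf.comp (by fun_prop))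
  have h1 : ∀ p : ℝ × ℝ, ENNReal.ofReal p.1 • f (Complex.polarCoord.symm p) =
      ENNReal.ofReal p.1 * f (p.1 * Complex.exp (p.2 * Complex.I)) := by
    intro p
    rw [smul_eq_mul, Complex.polarCoord_symm_apply, Complex.exp_mul_I]
    push_cast
    rfl
  simp only [h1]
  rw [polarCoord_target, show (volume : Measure (ℝ × ℝ)) = (volume : Measure ℝ).prod volume from
    rfl, ← Measure.prod_restrict, lintegral_prod _ hm.aemeasurable]
  refine lintegral_congr fun r => ?_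
  rw [lintegral_const_mul' _ _ ENNReal.ofReal_ne_top]

theorem lint_angle {G : ℂ → ENNReal} (hG : Measurable G) :
    ∫⁻ θ : ℝ in Ioo (-Real.pi) Real.pi, G (Complex.exp (θ * Complex.I) ^ 3) =
      ∫⁻ θ : ℝ in Ioo (-Real.pi) Real.pi, G (Complex.exp (θ * Complex.I)) := by
  have hf : Fact ((0 : ℝ) < 2 * Real.pi) := ⟨by positivity⟩
  have hco : ∀ θ : ℝ, (fourier (T := 2 * Real.pi) 1) (θ : AddCircle (2 * Real.pi)) =
      Complex.exp (θ * Complex.I) := by
    intro θ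
    rw [fourier_coe_apply]
    congr 1
    push_cast
    have : (Real.pi : ℂ) ≠ 0 := by exact_mod_cast Real.pi_ne_zero
    field_simp
  have hIoc : ∀ F : ℝ → ENNReal, ∫⁻ θ : ℝ in Ioo (-Real.pi) Real.pi, F θ =
      ∫⁻ θ : ℝ in Ioc (-Real.pi) (-Real.pi + 2 * Real.pi), F θ := by
    intro F
    have : -Real.pi + 2 * Real.pi = Real.pi := by ring
    rw [this]
    exact setLIntegral_congr Ioo_ae_eq_Ioc
  have hmp : MeasurePreserving (fun y : AddCircle (2 * Real.pi) => (3 : ℤ) • y) volume volume :=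
    Measure.measurePreserving_zsmul volume (by norm_num)
  obtain ⟨F, hF⟩ : ∃ F : AddCircle (2 * Real.pi) → ENNReal,
      F = fun y => G ((fourier (T := 2 * Real.pi) 1) y) := ⟨_, rfl⟩
  have hFm : Measurable F := by
    rw [hF]
    exact hG.comp (fourier (T := 2 * Real.pi) 1).continuous.measurable
  have e2 : ∀ θ : ℝ, G (Complex.exp (θ * Complex.I)) = F θ := by
    intro θ
    rw [hF]
    simp only
    rw [hco]
  have e1 : ∀ θ : ℝ, G (Complex.exp (θ * Complex.I) ^ 3) =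
      (fun y : AddCircle (2 * Real.pi) => F ((3 : ℤ) • y)) θ := by
    intro θ
    have h3 : (3 : ℤ) • (θ : AddCircle (2 * Real.pi)) = ((3 * θ : ℝ) : AddCircle (2 * Real.pi)) := by
      rw [← AddCircle.coe_zsmul]
      congr 1
      simp
    simp only
    rw [h3, ← e2, ← Complex.exp_nat_mul]
    congr 2
    push_cast
    ring
  rw [hIoc, hIoc]
  simp only [e1, e2]
  have k1 := AddCircle.lintegral_preimage (2 * Real.pi) (-Real.pi) F
  have k2 := AddCircle.lintegral_preimage (2 * Real.pi) (-Real.pi)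
    (fun y : AddCircle (2 * Real.pi) => F ((3 : ℤ) • y))
  rw [k1, k2]
  exact hmp.lintegral_comp hFm

/-- the substitution `y = z³` -/
theorem lintC_cube {f : ℂ → ENNReal} (hf : Measurable f) :
    ∫⁻ z : ℂ, f (z ^ 3) = ∫⁻ y : ℂ, ENNReal.ofReal (1 / 3 * ‖y‖ ^ (-(4 / 3) : ℝ)) * f y := by
  have hm1 : Measurable fun z : ℂ => f (z ^ 3) := hf.comp (by fun_prop)
  have hm2 : Measurable fun y : ℂ => ENNReal.ofReal (1 / 3 * ‖y‖ ^ (-(4 / 3) : ℝ)) * f y :=
    (Measurable.ennreal_ofReal (by fun_prop)).mul hf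
  rw [lintC_polar hm1, lintC_polar hm2]
  have h1 : ∀ r : ℝ, (∫⁻ θ : ℝ in Ioo (-Real.pi) Real.pi,
      f ((r * Complex.exp (θ * Complex.I)) ^ 3)) =
      ∫⁻ θ : ℝ in Ioo (-Real.pi) Real.pi, f (((r ^ 3 : ℝ) : ℂ) * Complex.exp (θ * Complex.I)) := by
    intro r
    have hG : Measurable fun z : ℂ => f (((r ^ 3 : ℝ) : ℂ) * z) := hf.comp (by fun_prop)
    rw [← lint_angle hG]
    refine lintegral_congr fun θ => ?_
    rw [mul_pow]
    push_cast
    rfl
  simp only [h1]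
  have h2 : ∀ r ∈ Ioi (0 : ℝ), ENNReal.ofReal r * (∫⁻ θ : ℝ in Ioo (-Real.pi) Real.pi,
      ENNReal.ofReal (1 / 3 * ‖(r * Complex.exp (θ * Complex.I) : ℂ)‖ ^ (-(4 / 3) : ℝ)) *
        f (r * Complex.exp (θ * Complex.I))) =
      ENNReal.ofReal (1 / 3 * r ^ (-(1 / 3) : ℝ)) * ∫⁻ θ : ℝ in Ioo (-Real.pi) Real.pi,
        f (r * Complex.exp (θ * Complex.I)) := by
    intro r hr
    have hr' : (0 : ℝ) < r := hr
    have hn : ∀ θ : ℝ, ‖(r * Complex.exp (θ * Complex.I) : ℂ)‖ = r := by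
      intro θ
      rw [norm_mul, Complex.norm_exp_ofReal_mul_I, mul_one, Complex.norm_real, Real.norm_eq_abs,
        abs_of_pos hr']
    simp only [hn]
    rw [lintegral_const_mul' _ _ ENNReal.ofReal_ne_top, ← mul_assoc,
      ← ENNReal.ofReal_mul hr'.le]
    congr 2
    have : r ^ (-(1 / 3) : ℝ) = r * r ^ (-(4 / 3) : ℝ) := by
      nth_rewrite 2 [← Real.rpow_one r]
      rw [← Real.rpow_add hr']
      norm_num
    rw [this]
    ring
  rw [setLIntegral_congr_fun measurableSet_Ioi h2,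
    lint_rpow (α := 3) (by norm_num) (fun r => ENNReal.ofReal (1 / 3 * r ^ (-(1 / 3) : ℝ)) *
      ∫⁻ θ : ℝ in Ioo (-Real.pi) Real.pi, f (r * Complex.exp (θ * Complex.I)))]
  refine setLIntegral_congr_fun measurableSet_Ioi fun r hr => ?_
  have hr' : (0 : ℝ) < r := hr
  have e3 : r ^ (3 : ℝ) = r ^ 3 := by
    rw [show (3 : ℝ) = ((3 : ℕ) : ℝ) by norm_num, Real.rpow_natCast]
  have q1 : r ^ ((3 : ℝ) - 1) = r * r := by
    rw [show (3 : ℝ) - 1 = ((2 : ℕ) : ℝ) by norm_num, Real.rpow_natCast, pow_two]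
  have q2 : (r ^ 3) ^ (-(1 / 3) : ℝ) = r⁻¹ := by
    rw [← e3, ← Real.rpow_mul hr'.le, ← Real.rpow_neg_one]
    congr 1
    norm_num
  rw [← mul_assoc, ← ENNReal.ofReal_mul (by positivity), e3, q1, q2]
  congr 2
  field_simp

/-- the substitution `t = |z|^(2/3)` -/
theorem lintC_radial {f : ℝ → ENNReal} (hf : Measurable f) :
    ∫⁻ z : ℂ, ENNReal.ofReal (‖z‖ ^ (-(4 / 3) : ℝ)) * f (‖z‖ ^ (2 / 3 : ℝ)) =
      ENNReal.ofReal (3 * Real.pi) * ∫⁻ t in Ioi (0 : ℝ), f t := by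
  have hm : Measurable fun z : ℂ =>
      ENNReal.ofReal (‖z‖ ^ (-(4 / 3) : ℝ)) * f (‖z‖ ^ (2 / 3 : ℝ)) :=
    (Measurable.ennreal_ofReal (by fun_prop)).mul (hf.comp (by fun_prop))
  rw [lintC_polar hm, lint_rpow (α := 2 / 3) (by norm_num) f,
    ← lintegral_const_mul' _ _ ENNReal.ofReal_ne_top]
  refine setLIntegral_congr_fun measurableSet_Ioi fun r hr => ?_
  have hr' : (0 : ℝ) < r := hr
  have hn : ∀ θ : ℝ, ‖(r * Complex.exp (θ * Complex.I) : ℂ)‖ = r := by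
    intro θ
    rw [norm_mul, Complex.norm_exp_ofReal_mul_I, mul_one, Complex.norm_real, Real.norm_eq_abs,
      abs_of_pos hr']
  simp only [hn]
  rw [setLIntegral_const, Real.volume_Ioo]
  have key : r * r ^ (-(4 / 3) : ℝ) * (Real.pi - -Real.pi) =
      3 * Real.pi * (2 / 3 * r ^ ((2 / 3 : ℝ) - 1)) := by
    have : r ^ ((2 / 3 : ℝ) - 1) = r * r ^ (-(4 / 3) : ℝ) := by
      nth_rewrite 2 [← Real.rpow_one r]
      rw [← Real.rpow_add hr']
      norm_num
    rw [this]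
    ring
  calc ENNReal.ofReal r * (ENNReal.ofReal (r ^ (-(4 / 3) : ℝ)) * f (r ^ (2 / 3 : ℝ)) *
        ENNReal.ofReal (Real.pi - -Real.pi))
      = (ENNReal.ofReal r * ENNReal.ofReal (r ^ (-(4 / 3) : ℝ)) *
          ENNReal.ofReal (Real.pi - -Real.pi)) * f (r ^ (2 / 3 : ℝ)) := by ring
    _ = ENNReal.ofReal (3 * Real.pi * (2 / 3 * r ^ ((2 / 3 : ℝ) - 1))) * f (r ^ (2 / 3 : ℝ)) := by
        rw [← ENNReal.ofReal_mul (by positivity), ← ENNReal.ofReal_mul (by positivity), key]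
    _ = _ := by
        rw [ENNReal.ofReal_mul (by positivity), mul_assoc]

/-- two radial variables -/
theorem lint_two {F : ℝ → ENNReal} (hF : Measurable F) :
    ∫⁻ s in Ioi (0 : ℝ), ∫⁻ t in Ioi (0 : ℝ), F (s + t) =
      ∫⁻ t in Ioi (0 : ℝ), ENNReal.ofReal t * F t := by
  have h1 : ∀ s ∈ Ioi (0 : ℝ), ∫⁻ t in Ioi (0 : ℝ), F (s + t) =
      ∫⁻ t in Ioi (0 : ℝ), (Iio t).indicator (fun _ => F t) s := by
    intro s hs
    have hs' : (0 : ℝ) < s := hs
    rw [← lintegral_indicator measurableSet_Ioi, ← lintegral_indicator measurableSet_Ioi,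
      ← lintegral_add_left_eq_self (fun t => (Ioi (0 : ℝ)).indicator
        (fun t => (Iio t).indicator (fun _ => F t) s) t) s]
    refine lintegral_congr fun t => ?_
    by_cases ht : 0 < t
    · rw [indicator_of_mem (by exact ht), indicator_of_mem (by show 0 < s + t; linarith),
        indicator_of_mem (by show s < s + t; linarith)]
    · rw [indicator_of_notMem (by exact ht)]
      by_cases ht2 : 0 < s + t
      · rw [indicator_of_mem (by exact ht2), indicator_of_notMem (by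
          show ¬ s < s + t
          linarith)]
      · rw [indicator_of_notMem (by exact ht2)]
  rw [setLIntegral_congr_fun measurableSet_Ioi h1]
  have hm : Measurable fun p : ℝ × ℝ => (Iio p.2).indicator (fun _ => F p.2) p.1 := by
    have : (fun p : ℝ × ℝ => (Iio p.2).indicator (fun _ => F p.2) p.1) =
        {p : ℝ × ℝ | p.1 < p.2}.indicator (fun p => F p.2) := by
      funext p
      by_cases hp : p.1 < p.2
      · rw [indicator_of_mem (by exact hp), indicator_of_mem (by exact hp)]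
      · rw [indicator_of_notMem (by exact hp), indicator_of_notMem (by exact hp)]
    rw [this]
    exact (hF.comp measurable_snd).indicator (measurableSet_lt measurable_fst measurable_snd)
  rw [lintegral_lintegral_swap hm.aemeasurable]
  refine setLIntegral_congr_fun measurableSet_Ioi fun t ht => ?_
  have ht' : (0 : ℝ) < t := ht
  rw [lintegral_indicator measurableSet_Iio, lintegral_const, Measure.restrict_apply_univ,
    Measure.restrict_apply measurableSet_Iio, mul_comm]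
  congr 1
  have : Iio t ∩ Ioi 0 = Ioo 0 t := by
    ext x
    constructor
    · rintro ⟨h1, h2⟩
      exact ⟨h2, h1⟩
    · rintro ⟨h1, h2⟩
      exact ⟨h2, h1⟩
  rw [this, Real.volume_Ioo, sub_zero]

/-- the two radial integrations -/
theorem lintC_two {F : ℝ → ENNReal} (hF : Measurable F) :
    ∫⁻ a : ℂ, ∫⁻ b : ℂ, ENNReal.ofReal (‖a‖ ^ (-(4 / 3) : ℝ)) *
      (ENNReal.ofReal (‖b‖ ^ (-(4 / 3) : ℝ)) * F (‖a‖ ^ (2 / 3 : ℝ) + ‖b‖ ^ (2 / 3 : ℝ))) =
      ENNReal.ofReal (9 * Real.pi ^ 2) * ∫⁻ t in Ioi (0 : ℝ), ENNReal.ofReal t * F t := by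
  have h1 : ∀ a : ℂ, (∫⁻ b : ℂ, ENNReal.ofReal (‖a‖ ^ (-(4 / 3) : ℝ)) *
      (ENNReal.ofReal (‖b‖ ^ (-(4 / 3) : ℝ)) * F (‖a‖ ^ (2 / 3 : ℝ) + ‖b‖ ^ (2 / 3 : ℝ)))) =
      ENNReal.ofReal (‖a‖ ^ (-(4 / 3) : ℝ)) *
        (ENNReal.ofReal (3 * Real.pi) * ∫⁻ t in Ioi (0 : ℝ), F (‖a‖ ^ (2 / 3 : ℝ) + t)) := by
    intro a
    rw [lintegral_const_mul' _ _ ENNReal.ofReal_ne_top,
      lintC_radial (f := fun t => F (‖a‖ ^ (2 / 3 : ℝ) + t)) (hF.comp (by fun_prop))]
  have hm : Measurable fun s : ℝ => ENNReal.ofReal (3 * Real.pi) *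
      ∫⁻ t in Ioi (0 : ℝ), F (s + t) := by
    have : Measurable fun p : ℝ × ℝ => F (p.1 + p.2) := hF.comp (by fun_prop)
    exact this.lintegral_prod_right'.const_mul _
  simp only [h1]
  rw [lintC_radial (f := fun s => ENNReal.ofReal (3 * Real.pi) * ∫⁻ t in Ioi (0 : ℝ), F (s + t))
    hm, lintegral_const_mul' _ _ ENNReal.ofReal_ne_top, lint_two hF, ← mul_assoc,
    ← ENNReal.ofReal_mul (by positivity)]
  congr 2
  ring

/-- dilation of a half line -/
theorem lint_dil {c : ℝ} (hc : 0 < c) (F : ℝ → ENNReal) :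
    ∫⁻ t in Ioi (0 : ℝ), ENNReal.ofReal t * F t =
      ENNReal.ofReal (c ^ 2) * ∫⁻ x in Ioi (0 : ℝ), ENNReal.ofReal x * F (c * x) := by
  have himg : (fun x : ℝ => c * x) '' Ioi 0 = Ioi 0 := by
    ext t
    constructor
    · rintro ⟨x, hx, rfl⟩
      exact mul_pos hc hx
    · intro ht
      have ht' : 0 < t := ht
      refine ⟨t / c, by show 0 < t / c; positivity, ?_⟩
      simp only
      field_simp
  have hinj : InjOn (fun x : ℝ => c * x) (Ioi 0) := fun a _ b _ hab => mul_left_cancel₀ hc.ne' hab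
  have hder : ∀ x ∈ Ioi (0 : ℝ), HasDerivWithinAt (fun x : ℝ => c * x) c (Ioi 0) x := by
    intro x _
    simpa using ((hasDerivAt_id x).const_mul c).hasDerivWithinAt
  have hcv := lintegral_image_eq_lintegral_abs_deriv_mul measurableSet_Ioi hder hinj
    (fun t => ENNReal.ofReal t * F t)
  rw [himg] at hcv
  rw [hcv, ← lintegral_const_mul' _ _ ENNReal.ofReal_ne_top]
  refine setLIntegral_congr_fun measurableSet_Ioi fun x hx => ?_
  have hx' : (0 : ℝ) < x := hx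
  rw [abs_of_pos hc, ENNReal.ofReal_mul hc.le, pow_two, ENNReal.ofReal_mul hc.le]
  ring

/-! ### iterated integrals -/

theorem lintC_fin_succ {n : ℕ} {f : (Fin (n + 1) → ℂ) → ENNReal} (hf : Measurable f) :
    ∫⁻ w, f w = ∫⁻ a : ℂ, ∫⁻ w' : Fin n → ℂ, f (Fin.cons a w') := by
  have h1 := (volume_preserving_piFinSuccAbove (fun _ : Fin (n + 1) => ℂ) 0).symm
  have h2 := h1.lintegral_comp hf
  rw [← h2, show (volume : Measure (ℂ × (Fin n → ℂ))) = (volume : Measure ℂ).prod volume from rfl,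
    lintegral_prod]
  · refine lintegral_congr fun a => lintegral_congr fun w' => ?_
    show f (Fin.insertNth 0 a w') = f (Fin.cons a w')
    rw [Fin.insertNth_zero']
  · exact (hf.comp h1.measurable).aemeasurable

theorem lintC_fin4 {f : (Fin 4 → ℂ) → ENNReal} (hf : Measurable f) :
    ∫⁻ w, f w = ∫⁻ a : ℂ, ∫⁻ b : ℂ, ∫⁻ c : ℂ, ∫⁻ d : ℂ, f ![a, b, c, d] := by
  have hcons : ∀ (n : ℕ) (a : ℂ),
      Measurable fun w' : Fin n → ℂ => (Fin.cons a w' : Fin (n + 1) → ℂ) := by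
    intro n a
    refine measurable_pi_lambda _ fun i => ?_
    refine Fin.cases ?_ (fun j => ?_) i
    · exact measurable_const
    · exact measurable_pi_apply j
  rw [lintC_fin_succ hf]
  refine lintegral_congr fun a => ?_
  have h1 := hf.comp (hcons 3 a)
  rw [show (∫⁻ w' : Fin 3 → ℂ, f (Fin.cons a w')) = ∫⁻ w' : Fin 3 → ℂ,
    (f ∘ fun w' : Fin 3 → ℂ => (Fin.cons a w' : Fin 4 → ℂ)) w' from rfl, lintC_fin_succ h1]
  refine lintegral_congr fun b => ?_
  have h2 := h1.comp (hcons 2 b)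
  rw [show (∫⁻ w' : Fin 2 → ℂ, (f ∘ fun w' : Fin 3 → ℂ => (Fin.cons a w' : Fin 4 → ℂ))
    (Fin.cons b w')) = ∫⁻ w' : Fin 2 → ℂ, ((f ∘ fun w' : Fin 3 → ℂ =>
      (Fin.cons a w' : Fin 4 → ℂ)) ∘ fun w' : Fin 2 → ℂ => (Fin.cons b w' : Fin 3 → ℂ)) w' from rfl,
    lintC_fin_succ h2]
  refine lintegral_congr fun c => ?_
  have h3 := h2.comp (hcons 1 c)
  rw [show (∫⁻ w' : Fin 1 → ℂ, ((f ∘ fun w' : Fin 3 → ℂ =>
      (Fin.cons a w' : Fin 4 → ℂ)) ∘ fun w' : Fin 2 → ℂ => (Fin.cons b w' : Fin 3 → ℂ))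
      (Fin.cons c w')) = ∫⁻ w' : Fin 1 → ℂ, (((f ∘ fun w' : Fin 3 → ℂ =>
      (Fin.cons a w' : Fin 4 → ℂ)) ∘ fun w' : Fin 2 → ℂ => (Fin.cons b w' : Fin 3 → ℂ)) ∘
      fun w' : Fin 1 → ℂ => (Fin.cons c w' : Fin 2 → ℂ)) w' from rfl, lintC_fin_succ h3]
  refine lintegral_congr fun d => ?_
  rw [lintegral_unique, Measure.volume_pi_eq_dirac, Measure.dirac_apply_of_mem (mem_univ _), mul_one]
  have : ∀ e : Fin 0 → ℂ, (Fin.cons a (Fin.cons b (Fin.cons c (Fin.cons d e))) : Fin 4 → ℂ) =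
      ![a, b, c, d] := by
    intro e
    ext i
    fin_cases i <;> rfl
  simp only [Function.comp]
  rw [this]

end Pool.Agent.LeoC.H75
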